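import Mathlib
import Pool.Agent.AAP.SA
import Pool.Agent.AAP.Ex3
import Pool.Agent.Arb.Rat2

set_option autoImplicit false

/-!
# The polynomial `x ^ 2 - 1` over the rational numbers
-/

namespace Pool.Agent.TFS2

open Polynomial NumberField IsDedekindDomain
open scoped WithZero
open Pool.Agent.PNH (Tup app mp IsMor)
open Pool.Agent.TameArb (PosDens ph Good GP ph_eq_eval)

/-- the forms of `x ^ 2 + c` -/
noncomputable def fq {A : Type} [CommRing A] (c : A) : Tup 1 A :=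
  ![MvPolynomial.X 0 ^ 2 + MvPolynomial.C c * MvPolynomial.X 1 ^ 2, MvPolynomial.X 1 ^ 2]

theorem fq_hom {A : Type} [CommRing A] (c : A) (i : Fin 2) : (fq c i).IsHomogeneous 2 := by
  have h : ∀ j : Fin 2, (MvPolynomial.X j ^ 2 : MvPolynomial (Fin 2) A).IsHomogeneous 2 := by
    intro j
    simpa using (MvPolynomial.isHomogeneous_X A j).pow 2
  fin_cases i
  · refine (h 0).add ?_
    have := (MvPolynomial.isHomogeneous_C (Fin 2) c).mul (h 1)
    simpa using this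
  · exact h 1

theorem app_fq {A : Type} [CommRing A] (c : A) (z : Fin 2 → A) :
    app (fq c) z = ![z 0 ^ 2 + c * z 1 ^ 2, z 1 ^ 2] := by
  funext i
  unfold app
  fin_cases i
  · change MvPolynomial.eval z (MvPolynomial.X 0 ^ 2 +
      MvPolynomial.C c * MvPolynomial.X 1 ^ 2) = z 0 ^ 2 + c * z 1 ^ 2
    simp
  · change MvPolynomial.eval z (MvPolynomial.X 1 ^ 2) = z 1 ^ 2
    simp

theorem fq_mor {k : Type} [Field k] (c : k) : IsMor 2 k (fq c) := by
  refine ⟨fq_hom c, fun x hx => ?_⟩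
  have e : mp (algebraMap k (AlgebraicClosure k)) (fq c) =
      fq (algebraMap k (AlgebraicClosure k) c) := by
    funext i
    unfold mp
    fin_cases i
    · change MvPolynomial.map _ (MvPolynomial.X 0 ^ 2 +
        MvPolynomial.C c * MvPolynomial.X 1 ^ 2) = MvPolynomial.X 0 ^ 2 +
        MvPolynomial.C (algebraMap k (AlgebraicClosure k) c) * MvPolynomial.X 1 ^ 2
      simp
    · change MvPolynomial.map _ (MvPolynomial.X 1 ^ 2) = MvPolynomial.X 1 ^ 2
      simp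
  rw [e, app_fq] at hx
  have h1 : x 1 ^ 2 = 0 := congrFun hx 1
  have h1' : x 1 = 0 := pow_eq_zero_iff (two_ne_zero) |>.1 h1
  have h0 : x 0 ^ 2 + algebraMap k (AlgebraicClosure k) c * x 1 ^ 2 = 0 := congrFun hx 0
  rw [h1', zero_pow two_ne_zero, mul_zero, add_zero] at h0
  have h0' : x 0 = 0 := pow_eq_zero_iff (two_ne_zero) |>.1 h0
  funext i
  fin_cases i
  · exact h0'
  · exact h1'

theorem iter_fq {k : Type} [Field k] (c : k) (n : ℕ) (x : k) :
    (app (fq c))^[n] ![x, 1] = ![(fun y => y ^ 2 + c)^[n] x, 1] := by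
  induction n generalizing x with
  | zero => rfl
  | succ n ih =>
    rw [Function.iterate_succ_apply, Function.iterate_succ_apply, app_fq]
    have e : (![(![x, 1] : Fin 2 → k) 0 ^ 2 + c * (![x, 1] : Fin 2 → k) 1 ^ 2,
        (![x, 1] : Fin 2 → k) 1 ^ 2] : Fin 2 → k) = ![x ^ 2 + c, 1] := by
      funext i
      fin_cases i <;> simp
    rw [e]
    exact ih _

theorem ph_fq {k : Type} [Field k] (c : k) :
    (ph (X ^ 2 + C c : k[X]) : k → k) = fun y => y ^ 2 + c := by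
  funext x
  rw [ph_eq_eval]
  simp

/-- from the projective line to the affine line -/
theorem infinite_of_sp {K : Type} [Field K] [NumberField K] (c : K) (Γ : Finset K)
    (Δ : Finset (Fin 2 → K)) (hΔ : ∀ γ ∈ Γ, (![γ, 1] : Fin 2 → K) ∈ Δ)
    (h : PosDens (AAP.SP (fq c) Δ)) : (GP (X ^ 2 + C c) Γ).Infinite := by
  have h1 := h.infinite
  have hfin : ({v : HeightOneSpectrum (𝓞 K) | ¬ v.valuation K c ≤ 1} ∪
      ⋃ γ ∈ Γ, {v : HeightOneSpectrum (𝓞 K) | ¬ v.valuation K γ ≤ 1}).Finite := by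
    refine (Pool.Agent.TameArb.finite_gt c).union ?_
    exact Set.Finite.biUnion (Finset.finite_toSet Γ) fun γ _ => Pool.Agent.TameArb.finite_gt γ
  refine (h1.sdiff hfin).mono ?_
  rintro v ⟨⟨-, hv⟩, hv'⟩
  rw [Set.mem_union, not_or] at hv'
  obtain ⟨hc, hΓ⟩ := hv'
  have hc1 : v.valuation K c ≤ 1 := by
    by_contra h
    exact hc h
  refine ⟨⟨fun i => ?_, ?_⟩, fun γ hγ => ?_⟩
  · rw [coeff_add, coeff_X_pow, coeff_C]
    refine Valuation.map_add_le _ ?_ ?_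
    · split_ifs
      · rw [map_one]
      · rw [map_zero]
        exact zero_le_one
    · split_ifs
      · exact hc1
      · rw [map_zero]
        exact zero_le_one
  · rw [leadingCoeff_X_pow_add_C (by norm_num), map_one]
  · have hγ1 : v.valuation K γ ≤ 1 := by
      by_contra h
      apply hΓ
      simp only [Set.mem_iUnion]
      exact ⟨γ, hγ, h⟩
    refine ⟨hγ1, ?_⟩
    rintro ⟨n, hn, hper⟩
    refine hv ![γ, 1] (hΔ γ hγ) ⟨n, hn, ?_⟩
    rw [ph_fq] at hper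
    rw [iter_fq]
    have hle : ∀ x : K, 1 ≤ AAP.nv (v.valuation K) ![x, 1] := by
      intro x
      refine le_trans ?_ (AAP.le_nv (v := v.valuation K) ![x, 1] 1)
      simp
    have e : AAP.wd ![(fun y => y ^ 2 + c)^[n] γ, 1] ![γ, 1] =
        (fun y => y ^ 2 + c)^[n] γ - γ := by
      simp [AAP.wd]
    unfold AAP.Cg
    rw [e]
    exact hper.trans_le (one_le_mul (hle _) (hle _))

/-- the prime of norm three -/
theorem exists_three : ∃ v : HeightOneSpectrum (𝓞 ℚ), Ideal.absNorm v.asIdeal = 3 := by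
  have hpZ : Prime (3 : ℤ) := Int.prime_three
  let e := Rat.ringOfIntegersEquiv
  have hpO : Prime ((3 : ℕ) : 𝓞 ℚ) := by
    have h1 : Prime (e.symm (3 : ℤ)) := (MulEquiv.prime_iff e.symm).mpr hpZ
    have h2 : e.symm (3 : ℤ) = ((3 : ℕ) : 𝓞 ℚ) := by
      simp
    rwa [h2] at h1
  have hne : Ideal.span {((3 : ℕ) : 𝓞 ℚ)} ≠ ⊥ := by
    rw [Ne, Ideal.span_singleton_eq_bot]; exact hpO.ne_zero
  refine ⟨⟨Ideal.span {((3 : ℕ) : 𝓞 ℚ)},
    (Ideal.span_singleton_prime hpO.ne_zero).mpr hpO, hne⟩, ?_⟩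
  show Ideal.absNorm (Ideal.span {((3 : ℕ) : 𝓞 ℚ)}) = 3
  rw [Ideal.absNorm_span_natCast, RingOfIntegers.rank, Module.finrank_self, pow_one]

theorem infinite_neg_one (Γ : Finset ℚ)
    (hΓ : ∀ γ ∈ Γ, ∀ n, 0 < n → (ph (X ^ 2 + C (-1) : ℚ[X]))^[n] γ ≠ γ) :
    (GP (X ^ 2 + C (-1) : ℚ[X]) Γ).Infinite := by
  let ι : ℚ ↪ (Fin 2 → ℚ) := ⟨fun γ => ![γ, 1], fun a b hab => by simpa using congrFun hab 0⟩
  obtain ⟨v, hv⟩ := exists_three
  have hm : ∀ i m, v.valuation ℚ ((fq (-1 : ℚ) i).coeff m - (AAP.ex3 ℚ 2 i).coeff m) < 1 := by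
    intro i m
    have e : fq (-1 : ℚ) i = AAP.ex3 ℚ 2 i := by
      fin_cases i
      · change MvPolynomial.X 0 ^ 2 + MvPolynomial.C (-1) * MvPolynomial.X 1 ^ 2 =
          (MvPolynomial.X 0 ^ 2 - MvPolynomial.X 1 ^ 2) *
            (MvPolynomial.X 0 - MvPolynomial.X 1) ^ (2 - 2)
        rw [map_neg, map_one]
        ring
      · change MvPolynomial.X 1 ^ 2 = MvPolynomial.X 0 ^ (2 - 2) * MvPolynomial.X 1 ^ 2
        ring
    rw [e, sub_self, map_zero]
    exact zero_lt_one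
  obtain ⟨hG, h3, hS⟩ := AAP.ex3_sa (K := ℚ) le_rfl (fq_hom (-1 : ℚ)) v hv hm
  refine infinite_of_sp (-1 : ℚ) Γ (Γ.map ι) (fun γ hγ => Finset.mem_map.mpr ⟨γ, hγ, rfl⟩) ?_
  refine AAP.dens_sa le_rfl (fq_mor (-1 : ℚ)) v hG Nat.prime_three h3 _ ?_ ?_
  · intro x hx
    obtain ⟨γ, -, rfl⟩ := Finset.mem_map.mp hx
    intro h
    exact one_ne_zero (congrFun h 1)
  · intro x hx
    obtain ⟨γ, hγ, rfl⟩ := Finset.mem_map.mp hx
    have hne : (![γ, 1] : Fin 2 → ℚ) ≠ 0 := fun h => one_ne_zero (congrFun h 1)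
    rcases hS ![γ, 1] hne with h | ⟨N, hN, h⟩
    · exact Or.inl h
    · right
      refine ⟨?_, N, 2, hN, le_rfl, by norm_num, h⟩
      rintro ⟨n, hn, hper⟩
      change AAP.wd ((app (fq (-1 : ℚ)))^[n] ![γ, 1]) ![γ, 1] = 0 at hper
      rw [iter_fq] at hper
      refine hΓ γ hγ n hn ?_
      rw [ph_fq]
      have e : AAP.wd ![(fun y => y ^ 2 + (-1 : ℚ))^[n] γ, 1] ![γ, 1] =
          (fun y => y ^ 2 + (-1 : ℚ))^[n] γ - γ := by
        simp [AAP.wd]
      rw [e] at hper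
      exact sub_eq_zero.mp hper

end Pool.Agent.TFS2
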