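import Mathlib
import Pool.Agent.AAP.SA
import Pool.Agent.AAP.Ex3
import Pool.Agent.TFS2.Bas

set_option autoImplicit false

/-!
# The polynomials `x ^ d - 1` over the rational numbers, `d` even and prime to three
-/

namespace Pool.Agent.TFS2

open Polynomial NumberField IsDedekindDomain
open scoped WithZero
open Pool.Agent.PNH (Tup app mp IsMor)
open Pool.Agent.TameArb (PosDens ph Good GP ph_eq_eval)
open Pool.Agent.AAP (wd nv Cg PerMod SAt near IntT)
open Pool.Agent.AAP.Ex3A (W W_map)

/-- the forms of `x ^ d + c` -/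
noncomputable def fd {A : Type} [CommRing A] (c : A) (d : ℕ) : Tup 1 A :=
  ![MvPolynomial.X 0 ^ d + MvPolynomial.C c * MvPolynomial.X 1 ^ d, MvPolynomial.X 1 ^ d]

theorem fd_hom {A : Type} [CommRing A] (c : A) (d : ℕ) (i : Fin 2) :
    (fd c d i).IsHomogeneous d := by
  have h : ∀ j : Fin 2, (MvPolynomial.X j ^ d : MvPolynomial (Fin 2) A).IsHomogeneous d := by
    intro j
    simpa using (MvPolynomial.isHomogeneous_X A j).pow d
  fin_cases i
  · refine (h 0).add ?_
    have := (MvPolynomial.isHomogeneous_C (Fin 2) c).mul (h 1)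
    simpa using this
  · exact h 1

theorem app_fd {A : Type} [CommRing A] (c : A) (d : ℕ) (z : Fin 2 → A) :
    app (fd c d) z = ![z 0 ^ d + c * z 1 ^ d, z 1 ^ d] := by
  funext i
  unfold app
  fin_cases i
  · change MvPolynomial.eval z (MvPolynomial.X 0 ^ d +
      MvPolynomial.C c * MvPolynomial.X 1 ^ d) = z 0 ^ d + c * z 1 ^ d
    simp
  · change MvPolynomial.eval z (MvPolynomial.X 1 ^ d) = z 1 ^ d
    simp

theorem fd_mp {A B : Type} [CommRing A] [CommRing B] (f : A →+* B) (c : A) (d : ℕ) :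
    mp f (fd c d) = fd (f c) d := by
  funext i
  unfold mp
  fin_cases i
  · change MvPolynomial.map f (MvPolynomial.X 0 ^ d +
      MvPolynomial.C c * MvPolynomial.X 1 ^ d) = MvPolynomial.X 0 ^ d +
      MvPolynomial.C (f c) * MvPolynomial.X 1 ^ d
    simp
  · change MvPolynomial.map f (MvPolynomial.X 1 ^ d) = MvPolynomial.X 1 ^ d
    simp

theorem fd_mor {k : Type} [Field k] (c : k) {d : ℕ} (hd : d ≠ 0) : IsMor d k (fd c d) := by
  refine ⟨fd_hom c d, fun x hx => ?_⟩
  rw [fd_mp, app_fd] at hx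
  have h1 : x 1 ^ d = 0 := congrFun hx 1
  have h1' : x 1 = 0 := (pow_eq_zero_iff hd).1 h1
  have h0 : x 0 ^ d + algebraMap k (AlgebraicClosure k) c * x 1 ^ d = 0 := congrFun hx 0
  rw [h1, mul_zero, add_zero] at h0
  have h0' : x 0 = 0 := (pow_eq_zero_iff hd).1 h0
  funext i
  fin_cases i
  · exact h0'
  · exact h1'

theorem fd_good {k : Type} [Field k] (v : Valuation k ℤᵐ⁰) {c : k} (hc : v c ≤ 1) (d : ℕ) :
    AAP.Good v (fd c d) := by
  have hI : IntT v (fd c d) := by
    let F' : Tup 1 v.valuationSubring :=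
      fd (⟨c, (AAP.FrbA.mem_O v).2 hc⟩ : v.valuationSubring) d
    have e : mp v.valuationSubring.subtype F' = fd c d := by
      rw [fd_mp]
      rfl
    intro i m
    rw [← AAP.Ex3A.coeff_O v e]
    exact (AAP.FrbA.mem_O v).1 ((F' i).coeff m).2
  have hone : ∀ m, v ((1 : MvPolynomial (Fin 2) k).coeff m) ≤ 1 := by
    intro m
    rw [MvPolynomial.coeff_one]
    split_ifs
    · rw [map_one]
    · rw [map_zero]; exact zero_le_one
  have hzero : ∀ m, v ((0 : MvPolynomial (Fin 2) k).coeff m) ≤ 1 := by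
    intro m
    rw [MvPolynomial.coeff_zero, map_zero]
    exact zero_le_one
  have hC : ∀ m, v ((-MvPolynomial.C c : MvPolynomial (Fin 2) k).coeff m) ≤ 1 := by
    intro m
    rw [MvPolynomial.coeff_neg, Valuation.map_neg, MvPolynomial.coeff_C]
    split_ifs
    · exact hc
    · rw [map_zero]; exact zero_le_one
  refine ⟨hI, d, fun j => ?_⟩
  fin_cases j
  · refine ⟨![1, -MvPolynomial.C c], ?_, ?_⟩
    · intro i m
      fin_cases i
      · exact hone m
      · exact hC m
    · rw [Fin.sum_univ_two]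
      change 1 * (MvPolynomial.X 0 ^ d + MvPolynomial.C c * MvPolynomial.X 1 ^ d) +
        -MvPolynomial.C c * MvPolynomial.X 1 ^ d = MvPolynomial.X 0 ^ d
      ring
  · refine ⟨![0, 1], ?_, ?_⟩
    · intro i m
      fin_cases i
      · exact hzero m
      · exact hone m
    · rw [Fin.sum_univ_two]
      change 0 * (MvPolynomial.X 0 ^ d + MvPolynomial.C c * MvPolynomial.X 1 ^ d) +
        1 * MvPolynomial.X 1 ^ d = MvPolynomial.X 1 ^ d
      ring

/-! ### the reduction modulo three -/

section Red3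

variable {κ : Type} [CommRing κ]

theorem W_inf (c : κ) {d : ℕ} (hd : d ≠ 0) :
    W (fd c d) 1 ![1, 0] ![0, 1] = X ^ d * C (-1 : κ) := by
  unfold W near wd
  rw [fd_mp, Function.iterate_one, app_fd]
  simp

/-- the cofactor -/
noncomputable def cof (κ : Type) [CommRing κ] (d : ℕ) (a : κ[X]) : κ[X] :=
  ∑ i ∈ Finset.range d, a ^ i * (-1) ^ (d - 1 - i)

theorem cof_mul {d : ℕ} (he : Even d) (a : κ[X]) : cof κ d a * (a + 1) = a ^ d - 1 := by
  have h := (Commute.all a (-1 : κ[X])).geom_sum₂_mul d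
  rw [he.neg_one_pow, sub_neg_eq_add] at h
  exact h

theorem cof_zero {d : ℕ} (hd : d ≠ 0) (he : Even d) {a : κ[X]} (ha : a.coeff 0 = -1) :
    (cof κ d a).coeff 0 = -(d : κ) := by
  unfold cof
  rw [finsetSum_coeff]
  have h : ∀ i ∈ Finset.range d, (a ^ i * (-1) ^ (d - 1 - i)).coeff 0 = -1 := by
    intro i hi
    rw [Finset.mem_range] at hi
    rw [coeff_zero_eq_eval_zero, eval_mul, eval_pow, eval_pow, eval_neg, eval_one,
      ← coeff_zero_eq_eval_zero, ha, ← pow_add, show i + (d - 1 - i) = d - 1 by omega]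
    have : Odd (d - 1) := Nat.Even.sub_odd (by omega) he odd_one
    exact this.neg_one_pow
  rw [Finset.sum_congr rfl h, Finset.sum_const, Finset.card_range, nsmul_eq_mul]
  ring

theorem W_zero {d : ℕ} (he : Even d) :
    W (fd (-1 : κ) d) 2 ![0, 1] ![1, 0] = X ^ d * cof κ d (X ^ d - 1) := by
  unfold W near wd
  rw [fd_mp, Function.iterate_succ_apply, Function.iterate_one, app_fd, app_fd]
  have h := cof_mul (κ := κ) he (X ^ d - 1)
  rw [sub_add_cancel] at h
  calc _ = (X ^ d - 1 : κ[X]) ^ d - 1 := by simp [sub_eq_add_neg]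
    _ = _ := by rw [← h, mul_comm]

theorem W_neg {d : ℕ} (he : Even d) :
    W (fd (-1 : κ) d) 2 ![-1, 1] ![1, 0] = X ^ d * cof κ d (X - 1) ^ d := by
  unfold W near wd
  rw [fd_mp, Function.iterate_succ_apply, Function.iterate_one, app_fd, app_fd]
  have h := cof_mul (κ := κ) he (X - 1)
  rw [sub_add_cancel] at h
  calc _ = ((X - 1 : κ[X]) ^ d - 1) ^ d := by
        have e1 : (-1 + X : κ[X]) = X - 1 := by ring
        have e2 : ((X - 1 : κ[X]) ^ d + -1) = (X - 1) ^ d - 1 := by ring
        simp [e1, e2]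
    _ = _ := by rw [← h, mul_pow, mul_comm]

theorem orb_stable {F : Tup 1 κ} {T : Set (Fin 2 → κ)} (hT : ∀ z ∈ T, app F z ∈ T)
    {z : Fin 2 → κ} (hz : app F z ∈ T) {n : ℕ} (hn : 0 < n) : (app F)^[n] z ∈ T := by
  obtain ⟨m, rfl⟩ : ∃ m, n = m + 1 := ⟨n - 1, by omega⟩
  clear hn
  induction m with
  | zero => exact hz
  | succ m ih =>
    rw [Function.iterate_succ_apply']
    exact hT _ ih

end Red3

theorem orb_one {κ : Type} [Field κ] (h2 : (2 : κ) ≠ 0) {d : ℕ} (hd : d ≠ 0) (he : Even d)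
    {n : ℕ} (hn : 0 < n) : wd ((app (fd (-1 : κ) d))^[n] ![1, 1]) ![1, 1] ≠ 0 := by
  have h : (app (fd (-1 : κ) d))^[n] ![1, 1] ∈ ({![0, 1], ![-1, 1]} : Set (Fin 2 → κ)) := by
    refine orb_stable ?_ ?_ hn
    · rintro z (rfl | rfl)
      · right
        rw [app_fd]
        simp [hd]
      · left
        rw [app_fd]
        simp [he.neg_one_pow]
    · left
      rw [app_fd]
      simp
  unfold wd
  rcases h with h | h
  · rw [h]
    simp
  · rw [h]
    simp
    intro h4
    apply h2
    linear_combination -h4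

/-! ### local degrees and periods from the reduction -/

section Gen

variable {K : Type} [Field K] {v : Valuation K ℤᵐ⁰}

theorem sat_gen {F' : Tup 1 v.valuationSubring} {x : Fin 2 → K}
    {y u : Fin 2 → v.valuationSubring} (hxy : wd x (fun i => (y i : K)) = 0)
    (hy : nv v (fun i => (y i : K)) = 1)
    {p q : Fin 2 → IsLocalRing.ResidueField v.valuationSubring}
    (hp : (fun i => IsLocalRing.residue v.valuationSubring (y i)) = p)
    (hq : (fun i => IsLocalRing.residue v.valuationSubring (u i)) = q)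
    (hpq : wd p q ≠ 0) {N e : ℕ}
    {Q : (IsLocalRing.ResidueField v.valuationSubring)[X]}
    (hW : W (mp (IsLocalRing.residue v.valuationSubring) F') N p q = X ^ e * Q)
    (hQ : Q.coeff 0 ≠ 0) : SAt v (mp v.valuationSubring.subtype F') x N e := by
  set F := mp v.valuationSubring.subtype F' with hF'
  have h1 : W F N (fun i => (y i : K)) (fun i => (u i : K)) =
      (W F' N y u).map v.valuationSubring.subtype := by
    rw [← W_map, hF']
    rfl
  have h2 : W (mp (IsLocalRing.residue v.valuationSubring) F') N p q =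
      (W F' N y u).map (IsLocalRing.residue v.valuationSubring) := by
    rw [← W_map, hp, hq]
  have h3 : ∀ j, IsLocalRing.residue v.valuationSubring ((W F' N y u).coeff j) =
      (X ^ e * Q).coeff j := by
    intro j
    rw [← hW, h2, coeff_map]
  have h4 : ∀ j, (wd (near F N (fun i => (y i : K)) (fun i => (u i : K)))
      fun i => C ((fun i => (y i : K)) i)).coeff j =
      (((W F' N y u).coeff j : v.valuationSubring) : K) := by
    intro j
    have h5 := congrArg (fun P => coeff P j) h1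
    simp only [coeff_map] at h5
    exact h5
  refine ⟨fun i => (y i : K), fun i => (u i : K), hxy, hy, ?_, ?_, ?_, ?_⟩
  · exact max_le ((AAP.FrbA.mem_O v).1 (u 0).2) ((AAP.FrbA.mem_O v).1 (u 1).2)
  · have h5 : IsLocalRing.residue v.valuationSubring (wd y u) ≠ 0 := by
      rw [← AAP.wd_map, hp, hq]
      exact hpq
    have h6 := AAP.Ex3A.res_ne h5
    have h7 : ((wd y u : v.valuationSubring) : K) = wd (fun i => (y i : K)) (fun i => (u i : K)) :=
      (AAP.wd_map v.valuationSubring.subtype y u).symm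
    rwa [h7] at h6
  · intro j hj
    rw [h4, ← AAP.FrbA.residue_eq_zero, h3, coeff_X_pow_mul', if_neg (by omega)]
  · rw [h4]
    refine AAP.Ex3A.res_ne ?_
    rw [h3, coeff_X_pow_mul', if_pos le_rfl, Nat.sub_self]
    exact hQ

theorem per_gen {d : ℕ} {F' : Tup 1 v.valuationSubring}
    (hF : ∀ i, (mp v.valuationSubring.subtype F' i).IsHomogeneous d)
    (hG : AAP.Good v (mp v.valuationSubring.subtype F'))
    {y : Fin 2 → v.valuationSubring}
    (hy : nv v (fun i => (y i : K)) = 1)
    {p : Fin 2 → IsLocalRing.ResidueField v.valuationSubring}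
    (hp : (fun i => IsLocalRing.residue v.valuationSubring (y i)) = p)
    (h : PerMod v (mp v.valuationSubring.subtype F') (fun i => (y i : K))) :
    ∃ n : ℕ, 0 < n ∧
      wd ((app (mp (IsLocalRing.residue v.valuationSubring) F'))^[n] p) p = 0 := by
  obtain ⟨n, hn, hcg⟩ := h
  refine ⟨n, hn, ?_⟩
  have hy0 : (fun i => (y i : K)) ≠ 0 := by
    intro h0
    rw [h0, AAP.nv_eq_zero.2 rfl] at hy
    exact zero_ne_one hy
  have h1 : (app (mp v.valuationSubring.subtype F'))^[n] (fun i => (y i : K)) =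
      fun i => (((app F')^[n] y i : v.valuationSubring) : K) :=
    PNH.iter_mp v.valuationSubring.subtype F' n y
  unfold Cg at hcg
  rw [AAP.good_iter_nv hF hG n hy0, hy, one_pow, one_mul, h1] at hcg
  have h2 : wd (fun i => (((app F')^[n] y i : v.valuationSubring) : K)) (fun i => (y i : K)) =
      ((wd ((app F')^[n] y) y : v.valuationSubring) : K) :=
    AAP.wd_map v.valuationSubring.subtype _ _
  rw [h2, ← AAP.FrbA.residue_eq_zero, ← AAP.wd_map, hp] at hcg
  rw [← hp, PNH.iter_mp, hp]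
  exact hcg

end Gen

/-- all cycles modulo a prime of norm three are critical -/
theorem fd_sa {K : Type} [Field K] [NumberField K] {d : ℕ} (hd : d ≠ 0) (he : Even d)
    (h3d : ¬ 3 ∣ d) (v : HeightOneSpectrum (𝓞 K)) (hv : Ideal.absNorm v.asIdeal = 3)
    {x : Fin 2 → K} (hx : x ≠ 0) :
    ¬ PerMod (v.valuation K) (fd (-1) d) x ∨ ∃ N, 0 < N ∧
      SAt (v.valuation K) (fd (-1) d) x N d := by
  have hc : (v.valuation K) (-1 : K) ≤ 1 := by rw [Valuation.map_neg, map_one]
  have hG : AAP.Good (v.valuation K) (fd (-1) d) := fd_good _ hc d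
  set F' : Tup 1 (v.valuation K).valuationSubring := fd (-1) d with hF'
  have e1 : mp (v.valuation K).valuationSubring.subtype F' = fd (-1 : K) d := by
    rw [hF', fd_mp, map_neg, map_one]
  have e2 : mp (IsLocalRing.residue (v.valuation K).valuationSubring) F' = fd (-1) d := by
    rw [hF', fd_mp, map_neg, map_one]
  obtain ⟨c, y, hc0, hyx, hy, hcl⟩ := AAP.Ex3A.exists_pt v hv hx
  have h3 := AAP.Ex3A.res_three_zero v hv
  have hxy : wd x (fun i => (y i : K)) = 0 := by
    rw [hyx, AAP.wd_smul_right, AAP.wd_self, mul_zero]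
  have hper : PerMod (v.valuation K) (fd (-1) d) x →
      PerMod (v.valuation K) (fd (-1) d) (fun i => (y i : K)) := by
    intro h
    rw [hyx]
    exact (AAP.PerMod.smul (fd_hom (-1 : K) d) hc0 x).2 h
  have h2 : (2 : IsLocalRing.ResidueField (v.valuation K).valuationSubring) ≠ 0 := by
    intro h2
    have h4 : (1 : IsLocalRing.ResidueField (v.valuation K).valuationSubring) = 3 - 2 := by
      norm_num
    rw [h3, h2, sub_zero] at h4
    exact one_ne_zero h4
  have hdκ : (d : IsLocalRing.ResidueField (v.valuation K).valuationSubring) ≠ 0 := by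
    intro h0
    have h5 : CharP (IsLocalRing.ResidueField (v.valuation K).valuationSubring) 3 := by
      refine (CharP.charP_iff_prime_eq_zero Nat.prime_three).2 ?_
      exact_mod_cast h3
    exact h3d ((CharP.cast_eq_zero_iff _ 3 d).1 h0)
  have hu : (fun i => IsLocalRing.residue (v.valuation K).valuationSubring
      ((![1, 0] : Fin 2 → (v.valuation K).valuationSubring) i)) = ![1, 0] := by
    funext i
    fin_cases i
    · exact map_one _
    · exact map_zero _
  have hu' : (fun i => IsLocalRing.residue (v.valuation K).valuationSubring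
      ((![0, 1] : Fin 2 → (v.valuation K).valuationSubring) i)) = ![0, 1] := by
    funext i
    fin_cases i
    · exact map_zero _
    · exact map_one _
  rcases hcl with h | h | h | h
  · right
    refine ⟨1, one_pos, ?_⟩
    rw [← e1]
    refine sat_gen hxy hy h hu' ?_ (by rw [e2]; exact W_inf _ hd) ?_
    · simp [wd]
    · simp
  · right
    refine ⟨2, two_pos, ?_⟩
    rw [← e1]
    refine sat_gen hxy hy h hu ?_ (by rw [e2]; exact W_zero he) ?_
    · simp [wd]
    · rw [cof_zero hd he (by simp [coeff_X_pow, hd.symm])]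
      exact neg_ne_zero.2 hdκ
  · left
    intro hp
    have hp' := hper hp
    rw [← e1] at hp'
    obtain ⟨n, hn, h4⟩ := per_gen (d := d) (by rw [e1]; exact fd_hom (-1) d)
      (by rw [e1]; exact hG) hy h hp'
    rw [e2] at h4
    exact orb_one h2 hd he hn h4
  · right
    refine ⟨2, two_pos, ?_⟩
    rw [← e1]
    refine sat_gen hxy hy h hu ?_ (by rw [e2]; exact W_neg he) ?_
    · simp [wd]
    · rw [coeff_zero_eq_eval_zero, eval_pow, ← coeff_zero_eq_eval_zero,
        cof_zero hd he (by simp)]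
      exact pow_ne_zero _ (neg_ne_zero.2 hdκ)

theorem iter_fd {k : Type} [Field k] (c : k) (d n : ℕ) (x : k) :
    (app (fd c d))^[n] ![x, 1] = ![(fun y => y ^ d + c)^[n] x, 1] := by
  induction n generalizing x with
  | zero => rfl
  | succ n ih =>
    rw [Function.iterate_succ_apply, Function.iterate_succ_apply, app_fd]
    have e : (![(![x, 1] : Fin 2 → k) 0 ^ d + c * (![x, 1] : Fin 2 → k) 1 ^ d,
        (![x, 1] : Fin 2 → k) 1 ^ d] : Fin 2 → k) = ![x ^ d + c, 1] := by
      funext i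
      fin_cases i <;> simp
    rw [e]
    exact ih _

theorem ph_fd {k : Type} [Field k] (c : k) (d : ℕ) :
    (ph (X ^ d + C c : k[X]) : k → k) = fun y => y ^ d + c := by
  funext x
  rw [ph_eq_eval]
  simp

/-- from the projective line to the affine line -/
theorem infinite_of_sp_d {K : Type} [Field K] [NumberField K] (c : K) {d : ℕ} (hd : d ≠ 0)
    (Γ : Finset K) (Δ : Finset (Fin 2 → K)) (hΔ : ∀ γ ∈ Γ, (![γ, 1] : Fin 2 → K) ∈ Δ)
    (h : PosDens (AAP.SP (fd c d) Δ)) : (GP (X ^ d + C c) Γ).Infinite := by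
  have h1 := h.infinite
  have hfin : ({v : HeightOneSpectrum (𝓞 K) | ¬ v.valuation K c ≤ 1} ∪
      ⋃ γ ∈ Γ, {v : HeightOneSpectrum (𝓞 K) | ¬ v.valuation K γ ≤ 1}).Finite := by
    refine (Pool.Agent.TameArb.finite_gt c).union ?_
    exact Set.Finite.biUnion (Finset.finite_toSet Γ) fun γ _ => Pool.Agent.TameArb.finite_gt γ
  refine (h1.sdiff hfin).mono ?_
  rintro v ⟨⟨-, hv⟩, hv'⟩
  rw [Set.mem_union, not_or] at hv'
  obtain ⟨hc, hΓ⟩ := hv'
  have hc1 : v.valuation K c ≤ 1 := by
    by_contra h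
    exact hc h
  refine ⟨⟨fun i => ?_, ?_⟩, fun γ hγ => ?_⟩
  · rw [coeff_add, coeff_X_pow, coeff_C]
    refine Valuation.map_add_le _ ?_ ?_
    · split_ifs
      · rw [map_one]
      · rw [map_zero]
        exact zero_le_one
    · split_ifs
      · exact hc1
      · rw [map_zero]
        exact zero_le_one
  · rw [leadingCoeff_X_pow_add_C (Nat.pos_of_ne_zero hd), map_one]
  · have hγ1 : v.valuation K γ ≤ 1 := by
      by_contra h
      apply hΓ
      simp only [Set.mem_iUnion]
      exact ⟨γ, hγ, h⟩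
    refine ⟨hγ1, ?_⟩
    rintro ⟨n, hn, hper⟩
    refine hv ![γ, 1] (hΔ γ hγ) ⟨n, hn, ?_⟩
    rw [ph_fd] at hper
    rw [iter_fd]
    have hle : ∀ x : K, 1 ≤ AAP.nv (v.valuation K) ![x, 1] := by
      intro x
      refine le_trans ?_ (AAP.le_nv (v := v.valuation K) ![x, 1] 1)
      simp
    have e : AAP.wd ![(fun y => y ^ d + c)^[n] γ, 1] ![γ, 1] =
        (fun y => y ^ d + c)^[n] γ - γ := by
      simp [AAP.wd]
    unfold AAP.Cg
    rw [e]
    exact hper.trans_le (one_le_mul (hle _) (hle _))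

theorem infinite_neg_one_d {K : Type} [Field K] [NumberField K] {d : ℕ} (hd : 2 ≤ d)
    (he : Even d) (h3d : ¬ 3 ∣ d) (v : HeightOneSpectrum (𝓞 K))
    (hv : Ideal.absNorm v.asIdeal = 3) (Γ : Finset K)
    (hΓ : ∀ γ ∈ Γ, ∀ n, 0 < n → (ph (X ^ d + C (-1) : K[X]))^[n] γ ≠ γ) :
    (GP (X ^ d + C (-1) : K[X]) Γ).Infinite := by
  have hd0 : d ≠ 0 := by omega
  let ι : K ↪ (Fin 2 → K) := ⟨fun γ => ![γ, 1], fun a b hab => by simpa using congrFun hab 0⟩
  have hc : (v.valuation K) (-1 : K) ≤ 1 := by rw [Valuation.map_neg, map_one]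
  refine infinite_of_sp_d (-1 : K) hd0 Γ (Γ.map ι)
    (fun γ hγ => Finset.mem_map.mpr ⟨γ, hγ, rfl⟩) ?_
  refine AAP.dens_sa hd (fd_mor (-1 : K) hd0) v (fd_good _ hc d) Nat.prime_three
    (AAP.Ex3A.val_three v hv) _ ?_ ?_
  · intro x hx
    obtain ⟨γ, -, rfl⟩ := Finset.mem_map.mp hx
    intro h
    exact one_ne_zero (congrFun h 1)
  · intro x hx
    obtain ⟨γ, hγ, rfl⟩ := Finset.mem_map.mp hx
    have hne : (![γ, 1] : Fin 2 → K) ≠ 0 := fun h => one_ne_zero (congrFun h 1)
    rcases fd_sa hd0 he h3d v hv hne with h | ⟨N, hN, h⟩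
    · exact Or.inl h
    · right
      refine ⟨?_, N, d, hN, hd, h3d, h⟩
      rintro ⟨n, hn, hper⟩
      change AAP.wd ((app (fd (-1 : K) d))^[n] ![γ, 1]) ![γ, 1] = 0 at hper
      rw [iter_fd] at hper
      refine hΓ γ hγ n hn ?_
      rw [ph_fd]
      have e : AAP.wd ![(fun y => y ^ d + (-1 : K))^[n] γ, 1] ![γ, 1] =
          (fun y => y ^ d + (-1 : K))^[n] γ - γ := by
        simp [AAP.wd]
      rw [e] at hper
      exact sub_eq_zero.mp hper

end Pool.Agent.TFS2
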