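import Mathlib
import Pool.Agent.PSH.Pair
import Pool.Agent.TFS2.BasD

set_option autoImplicit false

/-!
# Polynomials congruent to `x ^ d - 1` modulo a prime of norm three
-/

namespace Pool.Agent.TFS2

open Polynomial NumberField IsDedekindDomain
open scoped WithZero
open Pool.Agent.PNH (Tup app mp IsMor)
open Pool.Agent.TameArb (PosDens ph Good GP ph_eq_eval)
open Pool.Agent.AAP (wd nv Cg PerMod SAt near IntT fm)
open Pool.Agent.AAP.Ex3A (W W_map)
open Pool.Agent.PSH.PairA (pr hom_pr isMor_pr iter_pr good_pr fm_split lo)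

theorem fm_pm {k : Type} [Field k] {d : ℕ} (hd : d ≠ 0) :
    (fm fun j : Fin (d + 1) => (X ^ d + C (-1) : k[X]).coeff j) =
      MvPolynomial.X 0 ^ d + MvPolynomial.C (-1) * MvPolynomial.X 1 ^ d := by
  rw [fm_split]
  have h1 : lo (X ^ d + C (-1) : k[X]).coeff d = MvPolynomial.C (-1) *
      MvPolynomial.X 1 ^ (d - 1) := by
    unfold lo
    rw [Finset.sum_eq_single 0]
    · simp [coeff_X_pow, hd.symm]
    · intro i hi hi0
      rw [Finset.mem_range] at hi
      rw [coeff_add, coeff_X_pow, coeff_C, if_neg (by omega), if_neg hi0]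
      simp
    · intro h
      exact absurd (Finset.mem_range.2 (Nat.pos_of_ne_zero hd)) h
  have h2 : (X ^ d + C (-1) : k[X]).coeff d = 1 := by
    rw [coeff_add, coeff_X_pow, coeff_C, if_pos rfl, if_neg hd, add_zero]
  rw [h1, h2, map_one, one_mul, add_comm]
  congr 1
  rw [mul_left_comm]
  congr 1
  rw [← pow_succ']
  congr 1
  omega

theorem fm_sub' {k : Type} [Field k] {d : ℕ} (a b : Fin (d + 1) → k) :
    fm a - fm b = fm fun j => a j - b j := by
  unfold fm
  rw [← Finset.sum_sub_distrib]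
  refine Finset.sum_congr rfl fun i _ => ?_
  rw [map_sub]
  ring

/-- the reduction of the pair of forms -/
theorem red_pr {K : Type} [Field K] {v : Valuation K ℤᵐ⁰} {φ : K[X]} (hd : φ.natDegree ≠ 0)
    (hφ : ∀ i, v ((φ - (X ^ φ.natDegree + C (-1))).coeff i) < 1)
    {F' : Tup 1 v.valuationSubring} (hF' : mp v.valuationSubring.subtype F' = pr φ) :
    mp (IsLocalRing.residue v.valuationSubring) F' = fd (-1) φ.natDegree := by
  obtain ⟨d, hdd⟩ : ∃ d, d = φ.natDegree := ⟨_, rfl⟩
  rw [← hdd] at hd hφ ⊢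
  have hE : mp v.valuationSubring.subtype (fd (-1 : v.valuationSubring) d) = fd (-1) d := by
    rw [fd_mp, map_neg, map_one]
  have hE2 : mp (IsLocalRing.residue v.valuationSubring) (fd (-1 : v.valuationSubring) d) =
      fd (-1) d := by
    rw [fd_mp, map_neg, map_one]
  rw [← hE2]
  have key : ∀ i m, v ((pr φ i).coeff m - (fd (-1 : K) d i).coeff m) < 1 := by
    intro i m
    fin_cases i
    · change v ((fm fun j : Fin (φ.natDegree + 1) => φ.coeff j).coeff m -
        (MvPolynomial.X 0 ^ d + MvPolynomial.C (-1) * MvPolynomial.X 1 ^ d :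
          MvPolynomial (Fin 2) K).coeff m) < 1
      rw [← fm_pm hd, ← hdd, ← MvPolynomial.coeff_sub, fm_sub']
      refine PLY.coeff_lt (fun j => ?_) m
      have := hφ j
      rwa [coeff_sub] at this
    · change v ((MvPolynomial.X 1 ^ φ.natDegree : MvPolynomial (Fin 2) K).coeff m -
        (MvPolynomial.X 1 ^ d : MvPolynomial (Fin 2) K).coeff m) < 1
      rw [← hdd, sub_self, map_zero]
      exact zero_lt_one
  funext i
  unfold mp
  ext m
  rw [MvPolynomial.coeff_map, MvPolynomial.coeff_map, ← sub_eq_zero, ← map_sub,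
    AAP.FrbA.residue_eq_zero]
  change v ((((F' i).coeff m : v.valuationSubring) : K) -
    (((fd (-1 : v.valuationSubring) d i).coeff m : v.valuationSubring) : K)) < 1
  rw [AAP.Ex3A.coeff_O v hF', AAP.Ex3A.coeff_O v hE]
  exact key i m

/-- all cycles modulo a prime of norm three are critical -/
theorem pr_sa {K : Type} [Field K] [NumberField K] {φ : K[X]} (hd : 2 ≤ φ.natDegree)
    (he : Even φ.natDegree) (h3d : ¬ 3 ∣ φ.natDegree) (v : HeightOneSpectrum (𝓞 K))
    (hv : Ideal.absNorm v.asIdeal = 3) (hG : AAP.Good (v.valuation K) (pr φ))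
    (hφ : ∀ i, v.valuation K ((φ - (X ^ φ.natDegree + C (-1))).coeff i) < 1)
    {x : Fin 2 → K} (hx : x ≠ 0) :
    ¬ PerMod (v.valuation K) (pr φ) x ∨ ∃ N, 0 < N ∧
      SAt (v.valuation K) (pr φ) x N φ.natDegree := by
  obtain ⟨d, hdd⟩ : ∃ d, d = φ.natDegree := ⟨_, rfl⟩
  have hd0 : d ≠ 0 := by omega
  obtain ⟨F', e1⟩ := AAP.Ex3A.exists_O (v.valuation K) hG.1
  have e2 : mp (IsLocalRing.residue (v.valuation K).valuationSubring) F' = fd (-1) d := by
    rw [hdd]
    exact red_pr (by omega) hφ e1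
  obtain ⟨c, y, hc0, hyx, hy, hcl⟩ := AAP.Ex3A.exists_pt v hv hx
  have h3 := AAP.Ex3A.res_three_zero v hv
  have hxy : wd x (fun i => (y i : K)) = 0 := by
    rw [hyx, AAP.wd_smul_right, AAP.wd_self, mul_zero]
  have hper : PerMod (v.valuation K) (pr φ) x →
      PerMod (v.valuation K) (pr φ) (fun i => (y i : K)) := by
    intro h
    rw [hyx]
    exact (AAP.PerMod.smul (hom_pr φ) hc0 x).2 h
  have h2 : (2 : IsLocalRing.ResidueField (v.valuation K).valuationSubring) ≠ 0 := by
    intro h2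
    have h4 : (1 : IsLocalRing.ResidueField (v.valuation K).valuationSubring) = 3 - 2 := by
      norm_num
    rw [h3, h2, sub_zero] at h4
    exact one_ne_zero h4
  have hdκ : (d : IsLocalRing.ResidueField (v.valuation K).valuationSubring) ≠ 0 := by
    intro h0
    have h5 : CharP (IsLocalRing.ResidueField (v.valuation K).valuationSubring) 3 := by
      refine (CharP.charP_iff_prime_eq_zero Nat.prime_three).2 ?_
      exact_mod_cast h3
    rw [← hdd] at h3d
    exact h3d ((CharP.cast_eq_zero_iff _ 3 d).1 h0)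
  have hu : (fun i => IsLocalRing.residue (v.valuation K).valuationSubring
      ((![1, 0] : Fin 2 → (v.valuation K).valuationSubring) i)) = ![1, 0] := by
    funext i
    fin_cases i
    · exact map_one _
    · exact map_zero _
  have hu' : (fun i => IsLocalRing.residue (v.valuation K).valuationSubring
      ((![0, 1] : Fin 2 → (v.valuation K).valuationSubring) i)) = ![0, 1] := by
    funext i
    fin_cases i
    · exact map_zero _
    · exact map_one _
  rw [← hdd] at he ⊢
  rcases hcl with h | h | h | h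
  · right
    refine ⟨1, one_pos, ?_⟩
    rw [← e1]
    refine sat_gen hxy hy h hu' ?_ (by rw [e2]; exact W_inf _ hd0) ?_
    · simp [wd]
    · simp
  · right
    refine ⟨2, two_pos, ?_⟩
    rw [← e1]
    refine sat_gen hxy hy h hu ?_ (by rw [e2]; exact W_zero he) ?_
    · simp [wd]
    · rw [cof_zero hd0 he (by simp [coeff_X_pow, hd0.symm])]
      exact neg_ne_zero.2 hdκ
  · left
    intro hp
    have hp' := hper hp
    rw [← e1] at hp'
    obtain ⟨n, hn, h4⟩ := per_gen (d := φ.natDegree) (by rw [e1]; exact hom_pr φ)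
      (by rw [e1]; exact hG) hy h hp'
    rw [e2] at h4
    exact orb_one h2 hd0 he hn h4
  · right
    refine ⟨2, two_pos, ?_⟩
    rw [← e1]
    refine sat_gen hxy hy h hu ?_ (by rw [e2]; exact W_neg he) ?_
    · simp [wd]
    · rw [coeff_zero_eq_eval_zero, eval_pow, ← coeff_zero_eq_eval_zero,
        cof_zero hd0 he (by simp)]
      exact pow_ne_zero _ (neg_ne_zero.2 hdκ)

/-- from the projective line to the affine line -/
theorem infinite_of_pr {K : Type} [Field K] [NumberField K] {φ : K[X]} (hd : 2 ≤ φ.natDegree)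
    (Γ : Finset K) (Δ : Finset (Fin 2 → K)) (hΔ : ∀ γ ∈ Γ, (![γ, 1] : Fin 2 → K) ∈ Δ)
    (h : PosDens (AAP.SP (pr φ) Δ)) : (GP φ Γ).Infinite := by
  have h1 := h.infinite
  have hfin : ({v : HeightOneSpectrum (𝓞 K) | ¬ Good (v.valuation K) φ} ∪
      ⋃ γ ∈ Γ, {v : HeightOneSpectrum (𝓞 K) | ¬ v.valuation K γ ≤ 1}).Finite := by
    refine (Pool.Agent.TameArb.finite_bad hd).union ?_
    exact Set.Finite.biUnion (Finset.finite_toSet Γ) fun γ _ => Pool.Agent.TameArb.finite_gt γ
  refine (h1.sdiff hfin).mono ?_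
  rintro v ⟨⟨-, hv⟩, hv'⟩
  rw [Set.mem_union, not_or] at hv'
  obtain ⟨hg, hΓ⟩ := hv'
  have hgood : Good (v.valuation K) φ := by
    by_contra h
    exact hg h
  refine ⟨hgood, fun γ hγ => ?_⟩
  have hγ1 : v.valuation K γ ≤ 1 := by
    by_contra h
    apply hΓ
    simp only [Set.mem_iUnion]
    exact ⟨γ, hγ, h⟩
  refine ⟨hγ1, ?_⟩
  rintro ⟨n, hn, hper⟩
  refine hv ![γ, 1] (hΔ γ hγ) ⟨n, hn, ?_⟩
  rw [iter_pr]
  have hle : ∀ x : K, 1 ≤ AAP.nv (v.valuation K) ![x, 1] := by
    intro x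
    refine le_trans ?_ (AAP.le_nv (v := v.valuation K) ![x, 1] 1)
    simp
  have e : AAP.wd ![(ph φ)^[n] γ, 1] ![γ, 1] = (ph φ)^[n] γ - γ := by
    simp [AAP.wd]
  unfold AAP.Cg
  rw [e]
  exact hper.trans_le (one_le_mul (hle _) (hle _))

theorem infinite_res {K : Type} [Field K] [NumberField K] {φ : K[X]} (hd : 2 ≤ φ.natDegree)
    (he : Even φ.natDegree) (h3d : ¬ 3 ∣ φ.natDegree) (v : HeightOneSpectrum (𝓞 K))
    (hv : Ideal.absNorm v.asIdeal = 3)
    (hφ : ∀ i, v.valuation K ((φ - (X ^ φ.natDegree + C (-1))).coeff i) < 1) (Γ : Finset K)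
    (hΓ : ∀ γ ∈ Γ, ∀ n, 0 < n → (ph φ)^[n] γ ≠ γ) : (GP φ Γ).Infinite := by
  have hd0 : φ.natDegree ≠ 0 := by omega
  let ι : K ↪ (Fin 2 → K) := ⟨fun γ => ![γ, 1], fun a b hab => by simpa using congrFun hab 0⟩
  have hone : ∀ i, v.valuation K ((X ^ φ.natDegree + C (-1) : K[X]).coeff i) ≤ 1 := by
    intro i
    rw [coeff_add, coeff_X_pow, coeff_C]
    refine Valuation.map_add_le _ ?_ ?_
    · split_ifs
      · rw [map_one]
      · rw [map_zero]
        exact zero_le_one
    · split_ifs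
      · rw [Valuation.map_neg, map_one]
      · rw [map_zero]
        exact zero_le_one
  have hgood : Good (v.valuation K) φ := by
    refine ⟨fun i => ?_, ?_⟩
    · have e : φ.coeff i = (φ - (X ^ φ.natDegree + C (-1))).coeff i +
          (X ^ φ.natDegree + C (-1) : K[X]).coeff i := by
        rw [coeff_sub]; ring
      rw [e]
      exact Valuation.map_add_le _ (hφ i).le (hone i)
    · have h1 := hφ φ.natDegree
      rw [coeff_sub, coeff_add, coeff_X_pow, coeff_C, if_pos rfl, if_neg hd0, add_zero] at h1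
      have e : φ.leadingCoeff = (φ.coeff φ.natDegree - 1) + 1 := by
        rw [sub_add_cancel]; rfl
      rw [e, Valuation.map_add_eq_of_lt_right _ (by rwa [map_one]), map_one]
  have hG := good_pr hd hgood
  refine infinite_of_pr hd Γ (Γ.map ι) (fun γ hγ => Finset.mem_map.mpr ⟨γ, hγ, rfl⟩) ?_
  refine AAP.dens_sa hd (isMor_pr φ hd) v hG Nat.prime_three
    (AAP.Ex3A.val_three v hv) _ ?_ ?_
  · intro x hx
    obtain ⟨γ, -, rfl⟩ := Finset.mem_map.mp hx
    intro h
    exact one_ne_zero (congrFun h 1)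
  · intro x hx
    obtain ⟨γ, hγ, rfl⟩ := Finset.mem_map.mp hx
    have hne : (![γ, 1] : Fin 2 → K) ≠ 0 := fun h => one_ne_zero (congrFun h 1)
    rcases pr_sa hd he h3d v hv hG hφ hne with h | ⟨N, hN, h⟩
    · exact Or.inl h
    · right
      refine ⟨?_, N, φ.natDegree, hN, hd, h3d, h⟩
      rintro ⟨n, hn, hper⟩
      change AAP.wd ((app (pr φ))^[n] ![γ, 1]) ![γ, 1] = 0 at hper
      rw [iter_pr] at hper
      refine hΓ γ hγ n hn ?_
      have e : AAP.wd ![(ph φ)^[n] γ, 1] ![γ, 1] = (ph φ)^[n] γ - γ := by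
        simp [AAP.wd]
      rw [e] at hper
      exact sub_eq_zero.mp hper

end Pool.Agent.TFS2
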