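import Mathlib

set_option autoImplicit false

/-!
# Rational preimages of rational points under the map `x ^ 2 - 2`
-/

namespace Pool.Agent.TFS2

/-- the five exceptional rational points of `x ^ 2 - 2` -/
def ChebS (x : ℚ) : Prop := x = 0 ∨ x = 1 ∨ x = -1 ∨ x = 2 ∨ x = -2

theorem chebS_of_int {x : ℚ} (hd : x.den = 1) (h : |x| < 3) : ChebS x := by
  have hx : ((x.num : ℤ) : ℚ) = x := Rat.coe_int_num_of_den_eq_one hd
  rw [← hx] at h ⊢
  set n := x.num with hn
  have h1 : |n| < 3 := by exact_mod_cast h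
  rw [abs_lt] at h1
  have h2 : n = 0 ∨ n = 1 ∨ n = -1 ∨ n = 2 ∨ n = -2 := by omega
  unfold ChebS
  rcases h2 with h2 | h2 | h2 | h2 | h2 <;> rw [h2] <;> norm_num

theorem cheb_den (x : ℚ) : (x ^ 2 - 2).den = x.den ^ 2 := by
  have h := Rat.sub_intCast_den (x ^ 2) 2
  rw [Rat.den_pow] at h
  exact_mod_cast h

theorem chebS_back {x : ℚ} (h : ChebS (x ^ 2 - 2)) : ChebS x := by
  have hden : (x ^ 2 - 2).den = 1 := by
    rcases h with h | h | h | h | h <;> rw [h] <;> rfl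
  rw [cheb_den] at hden
  have hd : x.den = 1 := by
    rcases Nat.pow_eq_one.mp hden with h | h
    · exact h
    · omega
  refine chebS_of_int hd ?_
  have h2 : x ^ 2 ≤ 4 := by
    rcases h with h | h | h | h | h <;> linarith
  rw [abs_lt]
  constructor <;> nlinarith

theorem chebS_forward {x : ℚ} (h : ChebS x) : ChebS (x ^ 2 - 2) := by
  unfold ChebS at *
  rcases h with h | h | h | h | h <;> rw [h] <;> norm_num

theorem chebS_iter {x : ℚ} (n : ℕ) : ChebS ((fun x : ℚ => x ^ 2 - 2)^[n] x) ↔ ChebS x := by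
  induction n with
  | zero => rfl
  | succ n ih =>
    rw [Function.iterate_succ_apply', ← ih]
    exact ⟨fun h => chebS_back h, fun h => chebS_forward h⟩

theorem cheb_iter_den (x : ℚ) (n : ℕ) :
    ((fun x : ℚ => x ^ 2 - 2)^[n] x).den = x.den ^ 2 ^ n := by
  induction n with
  | zero => simp
  | succ n ih =>
    rw [Function.iterate_succ_apply']
    show (((fun x : ℚ => x ^ 2 - 2)^[n] x) ^ 2 - 2).den = _
    rw [cheb_den, ih, ← pow_mul, pow_succ]

theorem cheb_iter_grow {x : ℚ} (hx : 3 ≤ |x|) (n : ℕ) :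
    3 + (n : ℚ) ≤ |(fun x : ℚ => x ^ 2 - 2)^[n] x| := by
  induction n with
  | zero => simpa using hx
  | succ n ih =>
    rw [Function.iterate_succ_apply']
    set y := (fun x : ℚ => x ^ 2 - 2)^[n] x with hy
    show 3 + ((n + 1 : ℕ) : ℚ) ≤ |y ^ 2 - 2|
    have hn : (0 : ℚ) ≤ n := Nat.cast_nonneg n
    have h1 : y ^ 2 = |y| ^ 2 := (sq_abs y).symm
    have h2 : y ^ 2 - 2 ≤ |y ^ 2 - 2| := le_abs_self _
    push_cast
    nlinarith

theorem cheb_arith (γ : ℚ) (h2 : γ ≠ 2) (h1 : γ ≠ 1) (h0 : γ ≠ 0) (h1' : γ ≠ -1)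
    (h2' : γ ≠ -2) : ∃ s0 : ℕ, ∀ s, s0 ≤ s → ∀ T : ℚ,
      (fun x : ℚ => x ^ 2 - 2)^[s] T ≠ (fun x : ℚ => x ^ 2 - 2)^[6] γ := by
  set V := (fun x : ℚ => x ^ 2 - 2)^[6] γ with hV
  have hnot : ¬ ChebS V := by
    rw [hV, chebS_iter]
    rintro (h | h | h | h | h)
    · exact h0 h
    · exact h1 h
    · exact h1' h
    · exact h2 h
    · exact h2' h
  obtain ⟨m, hm⟩ := exists_nat_gt |V|
  refine ⟨V.den + m, fun s hs T hT => hnot ?_⟩
  rw [← hT, chebS_iter]
  have hden := cheb_iter_den T s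
  rw [hT] at hden
  have hd1 : T.den = 1 := by
    by_contra hne
    have h3 : 2 ≤ T.den := by
      have := T.den_pos
      omega
    have h4 : 2 ^ 2 ^ s ≤ T.den ^ 2 ^ s := Nat.pow_le_pow_left h3 _
    have h5 : s < 2 ^ s := Nat.lt_two_pow_self
    have h6 : 2 ^ s < 2 ^ 2 ^ s := Nat.lt_two_pow_self
    omega
  refine chebS_of_int hd1 ?_
  by_contra hlt
  have h7 := cheb_iter_grow (not_lt.mp hlt) s
  rw [hT] at h7
  have h8 : (m : ℚ) ≤ s := by
    have : m ≤ s := by omega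
    exact_mod_cast this
  linarith

end Pool.Agent.TFS2
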