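import Pool.Agent.Arb.Rat2
import Pool.Agent.NDE.Pol

/-!
# The map `x ^ 2 - 2` over the rational numbers: the points `0`, `1`, `-2`
-/

set_option autoImplicit false

open IsDedekindDomain NumberField Polynomial

namespace Pool.Agent.TFS2

open Pool.Agent.TameArb Pool.Agent.NDE

theorem chebB_ph (x : ℚ) : ph (X ^ 2 - C 2 : ℚ[X]) x = x ^ 2 - 2 := by
  rw [ph_eq_eval]
  simp

/-- the orbit of a point that reaches a fixed point after two steps -/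
theorem chebB_iter {a b : ℚ} (h1 : a ^ 2 - 2 = b) (h2 : b ^ 2 - 2 = b) (n : ℕ) (hn : 0 < n) :
    (ph (X ^ 2 - C 2 : ℚ[X]))^[n] a = b := by
  obtain ⟨m, rfl⟩ : ∃ m, n = m + 1 := ⟨n - 1, by omega⟩
  rw [Function.iterate_succ_apply, chebB_ph, h1]
  induction m with
  | zero => rfl
  | succ m ih =>
    rw [Function.iterate_succ_apply, chebB_ph, h2]
    exact ih (Nat.succ_pos m)

theorem cheb_exceptional
    (hmain : ∀ Γ : Finset ℚ, (∀ γ ∈ Γ, γ ≠ 2 ∧ γ ≠ 1 ∧ γ ≠ 0 ∧ γ ≠ -1 ∧ γ ≠ -2) →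
      NDE.NatDens (GP (X ^ 2 - C 2 : ℚ[X]) Γ))
    (Γ : Finset ℚ) (hΓ : ∀ γ ∈ Γ, ∀ n, 0 < n → (ph (X ^ 2 - C 2 : ℚ[X]))^[n] γ ≠ γ) :
    NDE.NatDens (GP (X ^ 2 - C 2 : ℚ[X]) Γ) := by
  classical
  have g2 : ∀ γ ∈ Γ, γ ≠ 2 := by
    rintro γ hγ rfl
    apply hΓ 2 hγ 1 one_pos
    rw [chebB_iter (b := 2) (by norm_num) (by norm_num) 1 one_pos]
  have g1 : ∀ γ ∈ Γ, γ ≠ -1 := by
    rintro γ hγ rfl
    apply hΓ (-1) hγ 1 one_pos
    rw [chebB_iter (b := -1) (by norm_num) (by norm_num) 1 one_pos]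
  have hfin : {v : HeightOneSpectrum (𝓞 ℚ) | v.valuation ℚ 2 < 1}.Finite :=
    TameArb.finite_lt (2 : ℚ) (by norm_num)
  have hmain' := hmain (Γ.filter fun γ => γ ≠ 0 ∧ γ ≠ 1 ∧ γ ≠ -2) (by
    intro γ hγ
    rw [Finset.mem_filter] at hγ
    obtain ⟨h, h0, h1, h2⟩ := hγ
    exact ⟨g2 γ h, h1, h0, g1 γ h, h2⟩)
  refine hmain'.mono hfin ?_
  rintro v ⟨hv, h⟩
  by_cases hv2 : v.valuation ℚ 2 < 1
  · exact Or.inr hv2
  left
  have hle2 : v.valuation ℚ 2 ≤ 1 := by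
    have := natCast_le (V := v.valuation ℚ) 2
    exact_mod_cast this
  have e2 : v.valuation ℚ 2 = 1 := le_antisymm hle2 (not_lt.mp hv2)
  refine ⟨hv, fun γ hγ => ?_⟩
  by_cases h0 : γ = 0
  · subst h0
    refine ⟨by rw [map_zero]; exact zero_le_one, ?_⟩
    rintro ⟨n, hn, hp⟩
    obtain ⟨m, rfl⟩ : ∃ m, n = m + 1 := ⟨n - 1, by omega⟩
    rw [Function.iterate_succ_apply, chebB_ph] at hp
    rcases Nat.eq_zero_or_pos m with rfl | hm
    · rw [Function.iterate_zero, id] at hp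
      have e : ((0 : ℚ) ^ 2 - 2 - 0) = -2 := by norm_num
      rw [e, Valuation.map_neg, e2] at hp
      exact lt_irrefl _ hp
    · rw [chebB_iter (b := 2) (by norm_num) (by norm_num) m hm] at hp
      rw [sub_zero, e2] at hp
      exact lt_irrefl _ hp
  by_cases h1 : γ = 1
  · subst h1
    refine ⟨by rw [map_one], ?_⟩
    rintro ⟨n, hn, hp⟩
    rw [chebB_iter (b := -1) (by norm_num) (by norm_num) n hn] at hp
    have e : ((-1 : ℚ) - 1) = -2 := by norm_num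
    rw [e, Valuation.map_neg, e2] at hp
    exact lt_irrefl _ hp
  by_cases h2 : γ = -2
  · subst h2
    refine ⟨by rw [Valuation.map_neg, e2], ?_⟩
    rintro ⟨n, hn, hp⟩
    rw [chebB_iter (b := 2) (by norm_num) (by norm_num) n hn] at hp
    have e : ((2 : ℚ) - -2) = 2 * 2 := by norm_num
    rw [e, map_mul, e2, one_mul] at hp
    exact lt_irrefl _ hp
  exact h γ (Finset.mem_filter.mpr ⟨hγ, h0, h1, h2⟩)

end Pool.Agent.TFS2
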