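import Mathlib

/-!
# The Galois part of the Chebyshev map `x ^ 2 - 2` over the rational numbers
-/

set_option autoImplicit false

open Polynomial Pointwise

namespace Pool.Agent.TFS2

theorem iter_cheb {F : Type*} [Field F] {y : F} (hy : y ≠ 0) (n : ℕ) :
    (fun x : F => x ^ 2 - 2)^[n] (y + y⁻¹) = y ^ 2 ^ n + (y ^ 2 ^ n)⁻¹ := by
  induction n with
  | zero => simp
  | succ n ih =>
    rw [Function.iterate_succ_apply', ih]
    show (y ^ 2 ^ n + (y ^ 2 ^ n)⁻¹) ^ 2 - 2 = _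
    rw [pow_succ 2 n, pow_mul]
    have h : y ^ 2 ^ n ≠ 0 := pow_ne_zero _ hy
    field_simp
    ring

section

variable {L : Type} [Field L] [CharZero L] [Algebra ℚ L] [FiniteDimensional ℚ L] [IsGalois ℚ L]

omit [CharZero L] [FiniteDimensional ℚ L] in
theorem exists_three_unit {k : ℕ} {ζ : L} (hζ : IsPrimitiveRoot ζ (2 ^ k)) :
    ∃ τ : L ≃ₐ[ℚ] L, ∀ ξ : L, ξ ^ 2 ^ k = 1 → τ ξ = ξ ^ 3 := by
  have hpos : 0 < 2 ^ k := by positivity
  have hcop : Nat.Coprime 3 (2 ^ k) := Nat.Coprime.pow_right k (by norm_num)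
  have h3 : IsPrimitiveRoot (ζ ^ 3) (2 ^ k) := hζ.pow_of_coprime 3 hcop
  have hmin : ∀ ξ : L, IsPrimitiveRoot ξ (2 ^ k) → cyclotomic (2 ^ k) ℚ = minpoly ℚ ξ := by
    intro ξ hξ
    apply minpoly.eq_of_irreducible_of_monic (cyclotomic.irreducible_rat hpos)
    · rw [aeval_def, ← eval_map, map_cyclotomic]
      exact hξ.isRoot_cyclotomic hpos
    · exact cyclotomic.monic _ _
  have hconj : IsConjRoot ℚ (ζ ^ 3) ζ := by
    show minpoly ℚ (ζ ^ 3) = minpoly ℚ ζ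
    rw [← hmin _ hζ, ← hmin _ h3]
  obtain ⟨τ, hτ⟩ := isConjRoot_iff_exists_algEquiv.mp hconj
  refine ⟨τ, fun ξ hξ => ?_⟩
  have : NeZero (2 ^ k) := ⟨hpos.ne'⟩
  obtain ⟨i, -, rfl⟩ := hζ.eq_pow_of_pow_eq_one hξ
  rw [map_pow, hτ]
  ring

omit [FiniteDimensional ℚ L] [IsGalois ℚ L] in
/-- an automorphism maps `z` to `z` or to its inverse -/
theorem map_or {z : L} (hz : z ≠ 0) {γ : ℚ} (h : z + z⁻¹ = algebraMap ℚ L γ) (σ : L ≃ₐ[ℚ] L) :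
    σ z = z ∨ σ z = z⁻¹ := by
  have hσ : σ z ≠ 0 := (map_ne_zero_iff σ σ.injective).mpr hz
  have h1 : σ z + (σ z)⁻¹ = z + z⁻¹ := by
    rw [← map_inv₀, ← map_add, h, σ.commutes]
  have h2 : (σ z - z) * (σ z - z⁻¹) = 0 := by
    have e1 : σ z * (σ z)⁻¹ = 1 := mul_inv_cancel₀ hσ
    have e2 : z * z⁻¹ = 1 := mul_inv_cancel₀ hz
    linear_combination (σ z) * h1 - e1 + e2
  rcases mul_eq_zero.mp h2 with h3 | h3
  · left; exact sub_eq_zero.mp h3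
  · right; exact sub_eq_zero.mp h3

theorem descent {Γ : Finset ℚ} {z : ℚ → L} (hz0 : ∀ γ ∈ Γ, z γ ≠ 0)
    (hz : ∀ γ ∈ Γ, z γ + (z γ)⁻¹ = algebraMap ℚ L γ) {k s : ℕ} (hsk : s ≤ k) {ζ : L}
    (hζ : IsPrimitiveRoot ζ (2 ^ k)) {γ₀ : ℚ} (hγ₀ : γ₀ ∈ Γ) {u : L}
    (hu : u ^ 2 ^ s = z γ₀)
    (hfix : ∀ σ : L ≃ₐ[ℚ] L, (∀ γ ∈ Γ, σ (z γ) = z γ) → σ ζ = ζ → σ u = u) :
    ∃ T : ℚ, (fun x : ℚ => x ^ 2 - 2)^[s] T = (fun x : ℚ => x ^ 2 - 2)^[6] γ₀ := by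
  obtain ⟨τ₃, hτ₃⟩ := exists_three_unit hζ
  set τ : L ≃ₐ[ℚ] L := τ₃ * τ₃ with hτdef
  have hτ : ∀ ξ : L, ξ ^ 2 ^ k = 1 → τ ξ = ξ ^ 9 := by
    intro ξ hξ
    rw [hτdef, AlgEquiv.mul_apply, hτ₃ ξ hξ, map_pow, hτ₃ ξ hξ]
    ring
  have hsq : ∀ σ : L ≃ₐ[ℚ] L, ∀ γ ∈ Γ, σ (σ (z γ)) = z γ := by
    intro σ γ hγ
    rcases map_or (hz0 γ hγ) (hz γ hγ) σ with h | h
    · rw [h, h]
    · rw [h, map_inv₀, h, inv_inv]
  have hτz : ∀ γ ∈ Γ, τ (z γ) = z γ := fun γ hγ => hsq τ₃ γ hγ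
  have hdvd : 2 ^ s ∣ 2 ^ k := pow_dvd_pow 2 hsk
  have hup : ∀ ξ : L, ξ ^ 2 ^ s = 1 → ξ ^ 2 ^ k = 1 := by
    intro ξ hξ
    obtain ⟨c, hc⟩ := hdvd
    rw [hc, pow_mul, hξ, one_pow]
  have hz00 := hz0 γ₀ hγ₀
  have hu0 : u ≠ 0 := by
    rintro rfl
    rw [zero_pow (by positivity)] at hu
    exact hz00 hu.symm
  have hrat : ∀ σ : L ≃ₐ[ℚ] L, σ (z γ₀) = z γ₀ → (σ u / u) ^ 2 ^ s = 1 := by
    intro σ h
    rw [div_pow, ← map_pow, hu, h, div_self hz00]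
  set a : L := τ u / u with ha
  have ha1 : a ^ 2 ^ s = 1 := hrat τ (hτz γ₀ hγ₀)
  have ha0 : a ≠ 0 := by
    intro h
    rw [h, zero_pow (by positivity)] at ha1
    exact zero_ne_one ha1
  have hτu : τ u = a * u := by rw [ha, div_mul_cancel₀ _ hu0]
  set b : L := u ^ 8 / a with hb
  have hb0 : b ≠ 0 := div_ne_zero (pow_ne_zero 8 hu0) ha0
  have hbpow : b ^ 2 ^ s = z γ₀ ^ 8 := by
    rw [hb, div_pow, ha1, div_one, ← pow_mul, mul_comm, pow_mul, hu]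
  -- `b` is fixed by the stabiliser of all `z γ`
  have hbN : ∀ σ : L ≃ₐ[ℚ] L, (∀ γ ∈ Γ, σ (z γ) = z γ) → σ b = b := by
    intro σ hσ
    have hcomm : σ (τ u) = τ (σ u) := by
      have h1 := hfix ((τ * σ)⁻¹ * (σ * τ)) (by
        intro γ hγ
        rw [AlgEquiv.mul_apply, AlgEquiv.mul_apply, hτz γ hγ, hσ γ hγ]
        have h2 : (τ * σ) (z γ) = z γ := by rw [AlgEquiv.mul_apply, hσ γ hγ, hτz γ hγ]
        conv_lhs => rw [← h2]
        rw [← AlgEquiv.mul_apply, inv_mul_cancel]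
        rfl) (by
        rw [AlgEquiv.mul_apply, AlgEquiv.mul_apply, hτ ζ hζ.pow_eq_one, map_pow]
        have h3 : (σ ζ) ^ 2 ^ k = 1 := by rw [← map_pow, hζ.pow_eq_one, map_one]
        have h2 : (τ * σ) ζ = (σ ζ) ^ 9 := by rw [AlgEquiv.mul_apply, hτ _ h3]
        rw [← h2, ← AlgEquiv.mul_apply, inv_mul_cancel]
        rfl)
      rw [AlgEquiv.mul_apply] at h1
      have h4 : (τ * σ) (((τ * σ)⁻¹) ((σ * τ) u)) = (τ * σ) u := by rw [h1]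
      rw [← AlgEquiv.mul_apply, mul_inv_cancel] at h4
      exact h4
    set c : L := σ u / u with hc
    have hc1 : c ^ 2 ^ s = 1 := hrat σ (hσ γ₀ hγ₀)
    have hc0 : c ≠ 0 := by
      intro h
      rw [h, zero_pow (by positivity)] at hc1
      exact zero_ne_one hc1
    have hσu : σ u = c * u := by rw [hc, div_mul_cancel₀ _ hu0]
    rw [hτu, map_mul, hσu, map_mul, hτ c (hup c hc1), hτu] at hcomm
    have h5 : σ a = c ^ 8 * a := by
      have h6 : σ a * (c * u) = (c ^ 8 * a) * (c * u) := by rw [hcomm]; ring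
      exact mul_right_cancel₀ (mul_ne_zero hc0 hu0) h6
    rw [hb, map_div₀, map_pow, hσu, h5]
    field_simp
  -- the orbit of `b ^ 8`
  have horb : ∀ σ : L ≃ₐ[ℚ] L, σ (b ^ 8) = b ^ 8 ∨ σ (b ^ 8) = (b ^ 8)⁻¹ := by
    intro σ
    have hτσ : τ (σ b) = σ b := by
      have h1 := hbN (σ⁻¹ * (τ * σ)) (by
        intro γ hγ
        rw [AlgEquiv.mul_apply, AlgEquiv.mul_apply]
        have h2 : τ (σ (z γ)) = σ (z γ) := by
          rcases map_or (hz0 γ hγ) (hz γ hγ) σ with h | h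
          · rw [h]; exact hτz γ hγ
          · rw [h, map_inv₀, hτz γ hγ]
        rw [h2, ← AlgEquiv.mul_apply, inv_mul_cancel]
        rfl)
      have h3 : σ ((σ⁻¹ * (τ * σ)) b) = σ b := by rw [h1]
      rw [← AlgEquiv.mul_apply, ← mul_assoc, mul_inv_cancel, one_mul] at h3
      exact h3
    have hτb : τ b = b := hbN τ hτz
    have key : ∀ ξ : L, ξ ≠ 0 → ξ ^ 2 ^ s = 1 → τ ξ = ξ → ξ ^ 8 = 1 := by
      intro ξ h0 h1 h2
      rw [hτ ξ (hup ξ h1)] at h2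
      exact mul_right_cancel₀ h0 (by rw [one_mul, ← pow_succ]; exact h2)
    have hσb0 : σ b ≠ 0 := (map_ne_zero_iff σ σ.injective).mpr hb0
    rcases map_or hz00 (hz γ₀ hγ₀) σ with h | h
    · left
      have h1 := key (σ b / b) (div_ne_zero hσb0 hb0) (by
        rw [div_pow, ← map_pow, hbpow, map_pow, h, div_self (pow_ne_zero 8 hz00)]) (by
        rw [map_div₀, hτσ, hτb])
      rw [div_pow, div_eq_one_iff_eq (pow_ne_zero 8 hb0)] at h1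
      rw [map_pow]; exact h1
    · right
      have h1 := key (σ b * b) (mul_ne_zero hσb0 hb0) (by
        rw [mul_pow, ← map_pow, hbpow, map_pow, h, ← mul_pow, inv_mul_cancel₀ hz00, one_pow]) (by
        rw [map_mul, hτσ, hτb])
      rw [mul_pow] at h1
      rw [map_pow]
      exact eq_inv_of_mul_eq_one_left h1
  have hT : (b ^ 8 + (b ^ 8)⁻¹) ∈ Set.range (algebraMap ℚ L) := by
    rw [IsGalois.mem_range_algebraMap_iff_fixed]
    intro σ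
    rw [map_add, map_inv₀]
    rcases horb σ with h | h
    · rw [h]
    · rw [h, inv_inv, add_comm]
  obtain ⟨T, hT⟩ := hT
  refine ⟨T, (algebraMap ℚ L).injective ?_⟩
  have hmap : ∀ (n : ℕ) (x : ℚ), algebraMap ℚ L ((fun x : ℚ => x ^ 2 - 2)^[n] x) =
      (fun x : L => x ^ 2 - 2)^[n] (algebraMap ℚ L x) := by
    intro n x
    induction n with
    | zero => rfl
    | succ n ih =>
      rw [Function.iterate_succ_apply', Function.iterate_succ_apply', ← ih]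
      simp
  rw [hmap, hmap, hT, ← hz γ₀ hγ₀, iter_cheb (pow_ne_zero 8 hb0), iter_cheb hz00]
  have e : (b ^ 8) ^ 2 ^ s = z γ₀ ^ 2 ^ 6 := by
    rw [← pow_mul, mul_comm, pow_mul, hbpow, ← pow_mul]
    norm_num
  rw [e]

/-- an automorphism moving all the roots `w γ` -/
theorem exists_moving' {Γ : Finset ℚ} {z w : ℚ → L} (hz0 : ∀ γ ∈ Γ, z γ ≠ 0)
    (hz : ∀ γ ∈ Γ, z γ + (z γ)⁻¹ = algebraMap ℚ L γ) {k : ℕ} (hk : Γ.card ≤ k) {ζ : L}
    (hζ : IsPrimitiveRoot ζ (2 ^ k)) (hw : ∀ γ ∈ Γ, w γ ^ 2 ^ k = z γ)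
    (hno : ∀ γ ∈ Γ, ∀ T : ℚ, (fun x : ℚ => x ^ 2 - 2)^[k - Γ.card] T ≠
      (fun x : ℚ => x ^ 2 - 2)^[6] γ) :
    ∃ h : L ≃ₐ[ℚ] L, (∀ γ ∈ Γ, h (z γ) = z γ) ∧ h ζ = ζ ∧ ∀ γ ∈ Γ, h (w γ) ≠ w γ := by
  classical
  by_contra hcon
  push Not at hcon
  let H : Subgroup (L ≃ₐ[ℚ] L) :=
    { carrier := {σ | (∀ γ ∈ Γ, σ (z γ) = z γ) ∧ σ ζ = ζ}
      mul_mem' := by
        rintro σ τ ⟨h1, h2⟩ ⟨h3, h4⟩
        refine ⟨fun γ hγ => ?_, ?_⟩
        · rw [AlgEquiv.mul_apply, h3 γ hγ, h1 γ hγ]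
        · rw [AlgEquiv.mul_apply, h4, h2]
      one_mem' := ⟨fun γ _ => rfl, rfl⟩
      inv_mem' := by
        rintro σ ⟨h1, h2⟩
        refine ⟨fun γ hγ => ?_, ?_⟩
        · conv_lhs => rw [← h1 γ hγ]
          exact σ.symm_apply_apply _
        · conv_lhs => rw [← h2]
          exact σ.symm_apply_apply _ }
  have hH : ∀ σ : L ≃ₐ[ℚ] L, σ ∈ H ↔ (∀ γ ∈ Γ, σ (z γ) = z γ) ∧ σ ζ = ζ := fun _ => Iff.rfl
  let S : ℚ → Subgroup H := fun γ => (MulAction.stabilizer (L ≃ₐ[ℚ] L) (w γ)).subgroupOf H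
  have hcov : ⋃ i ∈ Γ, (1 : H) • ((S i : Subgroup H) : Set H) = Set.univ := by
    rw [Set.eq_univ_iff_forall]
    rintro ⟨σ, hσ⟩
    obtain ⟨γ, hγ, h⟩ := hcon σ ((hH σ).mp hσ).1 ((hH σ).mp hσ).2
    simp only [Set.mem_iUnion]
    refine ⟨γ, hγ, ?_⟩
    rw [one_smul]
    show σ ∈ MulAction.stabilizer (L ≃ₐ[ℚ] L) (w γ)
    rw [MulAction.mem_stabilizer_iff]
    exact h
  obtain ⟨γ, hγ, hfin, hidx⟩ := Subgroup.exists_index_le_card_of_leftCoset_cover hcov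
  set R := Γ.card with hR
  have hz00 := hz0 γ hγ
  have hw0 : w γ ≠ 0 := by
    intro h
    have h1 := hw γ hγ
    rw [h, zero_pow (by positivity)] at h1
    exact hz00 h1.symm
  have hNZ : NeZero (2 ^ k) := ⟨by positivity⟩
  -- `u = w ^ (2 ^ R)` is fixed
  have hfix : ∀ σ : L ≃ₐ[ℚ] L, (∀ γ ∈ Γ, σ (z γ) = z γ) → σ ζ = ζ →
      σ (w γ ^ 2 ^ R) = w γ ^ 2 ^ R := by
    intro σ h1 h2
    have hσ : σ ∈ H := ⟨h1, h2⟩
    obtain ⟨j, hj0, hjle, hj⟩ := Subgroup.exists_pow_mem_of_index_ne_zero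
      (H := S γ) hfin.index_ne_zero ⟨σ, hσ⟩
    have hj2 : (σ ^ j) (w γ) = w γ := by
      have h3 : ((⟨σ, hσ⟩ : H) ^ j : H) ∈ S γ := hj
      exact h3
    set c : L := σ (w γ) / w γ with hc
    have hσw : σ (w γ) = c * w γ := by rw [hc, div_mul_cancel₀ _ hw0]
    have hc1 : c ^ 2 ^ k = 1 := by
      rw [hc, div_pow, ← map_pow, hw γ hγ, h1 γ hγ, div_self hz00]
    have hσc : σ c = c := by
      obtain ⟨i, -, hi⟩ := hζ.eq_pow_of_pow_eq_one hc1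
      rw [← hi, map_pow, h2]
    have hpow : ∀ i : ℕ, (σ ^ i) (w γ) = c ^ i * w γ := by
      intro i
      induction i with
      | zero => simp
      | succ i ih =>
        rw [pow_succ', AlgEquiv.mul_apply, ih, map_mul, map_pow, hσc, hσw]
        ring
    have hcj : c ^ j = 1 := by
      rw [hpow] at hj2
      exact mul_right_cancel₀ hw0 (by rw [hj2, one_mul])
    have hcR : c ^ 2 ^ R = 1 := by
      have h4 : orderOf c ∣ 2 ^ k := orderOf_dvd_of_pow_eq_one hc1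
      obtain ⟨r, -, hr⟩ := (Nat.dvd_prime_pow Nat.prime_two).mp h4
      have h5 : orderOf c ∣ j := orderOf_dvd_of_pow_eq_one hcj
      have h6 : 2 ^ r ≤ R := by
        rw [← hr]
        exact (Nat.le_of_dvd hj0 h5).trans (hjle.trans hidx)
      have h7 : r < R := (Nat.lt_two_pow_self).trans_le h6
      apply orderOf_dvd_iff_pow_eq_one.mp
      rw [hr]
      exact pow_dvd_pow 2 h7.le
    rw [map_pow, hσw, mul_pow, hcR, one_mul]
  obtain ⟨T, hT⟩ := descent hz0 hz (s := k - R) (Nat.sub_le _ _) hζ hγ (u := w γ ^ 2 ^ R) (by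
    rw [← pow_mul, ← pow_add, show R + (k - R) = k by omega, hw γ hγ]) hfix
  exact hno γ hγ T hT

/-- the polynomial whose roots are the `2 ^ k`-th roots of `z` and of its inverse -/
theorem quad_dvd {F : Type*} [Field F] (x : F) (k : ℕ) :
    (X ^ 2 - C x * X + 1 : F[X]) ∣
      X ^ (2 * 2 ^ k) - C ((fun x : F => x ^ 2 - 2)^[k] x) * X ^ 2 ^ k + 1 := by
  induction k with
  | zero => simp
  | succ k ih =>
    refine ih.trans ⟨X ^ (2 * 2 ^ k) + C ((fun x : F => x ^ 2 - 2)^[k] x) * X ^ 2 ^ k + 1, ?_⟩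
    rw [Function.iterate_succ_apply']
    set t := (fun x : F => x ^ 2 - 2)^[k] x
    have e : (C (t ^ 2 - 2) : F[X]) = C t ^ 2 - 2 := by
      rw [C_sub, C_pow]
      rfl
    show X ^ (2 * 2 ^ (k + 1)) - C (t ^ 2 - 2) * X ^ 2 ^ (k + 1) + 1 = _
    rw [e, pow_succ 2 k]
    ring

omit [FiniteDimensional ℚ L] [IsGalois ℚ L] in
/-- roots in `L` -/
theorem exists_w {γ : ℚ} {k : ℕ}
    (hs : ((X ^ (2 * 2 ^ k) - C γ * X ^ 2 ^ k + 1 : ℚ[X]).map (algebraMap ℚ L)).Splits) {x : L}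
    (hx : (fun x : L => x ^ 2 - 2)^[k] x = algebraMap ℚ L γ) :
    ∃ w : L, w ≠ 0 ∧ x = w + w⁻¹ := by
  have h1 := quad_dvd x k
  rw [hx] at h1
  have e : (X ^ (2 * 2 ^ k) - C γ * X ^ 2 ^ k + 1 : ℚ[X]).map (algebraMap ℚ L) =
      X ^ (2 * 2 ^ k) - C (algebraMap ℚ L γ) * X ^ 2 ^ k + 1 := by
    simp
  rw [e] at hs
  have hne : (X ^ (2 * 2 ^ k) - C (algebraMap ℚ L γ) * X ^ 2 ^ k + 1 : L[X]) ≠ 0 := by
    intro h
    have h2 := congrArg (eval 0) h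
    simp at h2
  have h2 := hs.of_dvd hne h1
  have hdeg : (X ^ 2 - C x * X + 1 : L[X]).degree ≠ 0 := by
    have : (X ^ 2 - C x * X + 1 : L[X]).degree = 2 := by
      compute_degree!
    rw [this]
    decide
  obtain ⟨w, hw⟩ := h2.exists_eval_eq_zero hdeg
  simp only [eval_add, eval_sub, eval_pow, eval_X, eval_mul, eval_C, eval_one] at hw
  have hw0 : w ≠ 0 := by
    rintro rfl
    simp at hw
  refine ⟨w, hw0, ?_⟩
  field_simp
  linear_combination -hw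

end

end Pool.Agent.TFS2
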