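import Pool.Agent.TFS2.Auto
import Pool.Agent.TFS2.ChebA
import Pool.Agent.TFS2.ChebB
import Pool.Agent.TFS2.ChebG

/-!
# The Chebyshev map `x ^ 2 - 2` over the rational numbers: finite sets of nonperiodic points
-/

set_option autoImplicit false

open Polynomial WithZero NumberField IsDedekindDomain
open scoped WithZero

namespace Pool.Agent.TFS2

open Pool.Agent.TameArb Pool.Agent.NDE

section One

variable {K : Type} [Field K] [NumberField K]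

theorem nat_of_one (φ : K[X]) (hd : 2 ≤ φ.natDegree) (Γ : Finset K) {n : ℕ}
    (L : Type) [Field L] [NumberField L] [Algebra K L] [IsGalois K L]
    (hsp : ∀ γ ∈ Γ, ((itp φ n).map (algebraMap K L) - C (algebraMap K L γ)).Splits)
    (g : L ≃ₐ[K] L)
    (hg : ∀ γ ∈ Γ, ∀ z : L, (ph φ)^[n] z = algebraMap K L γ → g z ≠ z) :
    NatDens (GP φ Γ) := by
  classical
  have hfib : ∀ γ : K, ∃ S : Finset L, ∀ x, x ∈ S ↔ (ph φ)^[n] x = algebraMap K L γ := by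
    intro γ
    obtain ⟨S, -, hS⟩ := exists_fibre φ hd n (algebraMap K L γ)
    exact ⟨S, hS⟩
  choose F hF using hfib
  -- the order of `g`
  have hfinG : Finite (L ≃ₐ[K] L) := inferInstance
  obtain ⟨N, hN, hgN⟩ : ∃ N, 0 < N ∧ g ^ N = 1 :=
    ⟨orderOf g, orderOf_pos g, pow_orderOf_eq_one g⟩
  have hdens : NatDens {v : HeightOneSpectrum (𝓞 K) | ∃ w : HeightOneSpectrum (𝓞 L),
      w.under (𝓞 K) = v ∧ ∀ z : L, w.valuation L (g z) = w.valuation L z} :=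
    fixed_nat K L g N hN hgN
  -- the bad primes
  set B : Set (HeightOneSpectrum (𝓞 K)) := {v | ¬ Good (v.valuation K) φ} ∪
    ((⋃ γ ∈ Γ, {v | ¬ v.valuation K γ ≤ 1}) ∪
      (fun w : HeightOneSpectrum (𝓞 L) => w.under (𝓞 K)) ''
        (⋃ γ ∈ Γ, ⋃ x ∈ F γ, {w | w.valuation L (g x - x) < 1})) with hB
  have hBfin : B.Finite := by
    refine (finite_bad hd).union (Set.Finite.union ?_ (Set.Finite.image _ ?_))
    · exact Set.Finite.biUnion (Finset.finite_toSet Γ) fun γ _ => finite_gt γ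
    · refine Set.Finite.biUnion (Finset.finite_toSet Γ) fun γ hγ => ?_
      refine Set.Finite.biUnion (Finset.finite_toSet (F γ)) fun x hx => ?_
      apply finite_lt
      have h1 := hg γ (Finset.mem_coe.mp hγ) x ((hF γ x).mp (Finset.mem_coe.mp hx))
      exact sub_ne_zero.mpr h1
  refine hdens.mono hBfin ?_
  rintro v ⟨w, hwv, hw⟩
  by_cases hvB : v ∈ B
  · exact Or.inr hvB
  left
  rw [hB] at hvB
  simp only [Set.mem_union, not_or] at hvB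
  obtain ⟨hgood', hint', hclose'⟩ := hvB
  have hgood : Good (v.valuation K) φ := by
    by_contra h; exact hgood' h
  refine ⟨hgood, ?_⟩
  intro γ hγ
  have hγ1 : v.valuation K γ ≤ 1 := by
    by_contra h
    apply hint'
    simp only [Set.mem_iUnion]
    exact ⟨γ, hγ, h⟩
  refine ⟨hγ1, ?_⟩
  rintro ⟨k, hk, hper⟩
  -- the valuation above
  have hlo : w.asIdeal.LiesOver v.asIdeal := by
    rw [← hwv]; exact ⟨rfl⟩
  set e := v.asIdeal.ramificationIdx' w.asIdeal with he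
  have he0 : e ≠ 0 :=
    Ideal.IsDedekindDomain.ramificationIdx'_ne_zero_of_liesOver w.asIdeal v.ne_bot
  have ho : Over (v.valuation K) (w.valuation L) e :=
    ⟨he0, fun x => HeightOneSpectrum.valuation_liesOver L v w x⟩
  -- a preimage of `γ` modulo `v` in `K`
  obtain ⟨m, hm⟩ : ∃ m, k * n + k = n + m := ⟨k * n + k - n, by
    have : n ≤ k * n := Nat.le_mul_of_pos_left n hk
    omega⟩
  have hcong := per_cong hgood hγ1 hper 0 (n + 1)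
  rw [zero_add, show k * (n + 1) = n + m by rw [← hm]; ring, Function.iterate_add_apply] at hcong
  have hcong' : v.valuation K ((ph φ)^[n] ((ph φ)^[m] γ) - γ) < 1 := hcong
  have h1 := ho.lt_one.mpr hcong'
  rw [map_sub, iter_algebraMap] at h1
  obtain ⟨x, hx, hax⟩ := ho.exists_root_close hgood hd (hsp γ hγ) h1
  apply hclose'
  refine ⟨w, ?_, hwv⟩
  simp only [Set.mem_iUnion]
  refine ⟨γ, hγ, x, (hF γ x).mpr hx, ?_⟩
  have h2 : w.valuation L (g (algebraMap K L ((ph φ)^[m] γ) - x)) < 1 := by rw [hw]; exact hax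
  rw [map_sub, g.commutes] at h2
  have e1 : g x - x = (algebraMap K L ((ph φ)^[m] γ) - x) -
      (algebraMap K L ((ph φ)^[m] γ) - g x) := by ring
  show w.valuation L (g x - x) < 1
  rw [e1]
  exact Valuation.map_sub_lt _ hax h2



end One

theorem ph_cheb {F : Type*} [Field F] [Algebra ℚ F] :
    (ph (X ^ 2 - C 2 : ℚ[X]) : F → F) = fun x => x ^ 2 - 2 := by
  funext x
  rw [ph_eq_eval_map]
  simp

theorem cheb_main (Γ : Finset ℚ)
    (hΓ : ∀ γ ∈ Γ, γ ≠ 2 ∧ γ ≠ 1 ∧ γ ≠ 0 ∧ γ ≠ -1 ∧ γ ≠ -2) :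
    NatDens (GP (X ^ 2 - C 2 : ℚ[X]) Γ) := by
  classical
  have hdeg : (X ^ 2 - C 2 : ℚ[X]).natDegree = 2 := natDegree_X_pow_sub_C
  have hd : 2 ≤ (X ^ 2 - C 2 : ℚ[X]).natDegree := by rw [hdeg]
  -- the level
  have hs : ∀ γ : ℚ, ∃ s0 : ℕ, γ ∈ Γ → ∀ s, s0 ≤ s → ∀ T : ℚ,
      (fun x : ℚ => x ^ 2 - 2)^[s] T ≠ (fun x : ℚ => x ^ 2 - 2)^[6] γ := by
    intro γ
    by_cases h : γ ∈ Γ
    · obtain ⟨h2, h1, h0, h1', h2'⟩ := hΓ γ h
      obtain ⟨s0, hs0⟩ := cheb_arith γ h2 h1 h0 h1' h2'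
      exact ⟨s0, fun _ => hs0⟩
    · exact ⟨0, fun h' => absurd h' h⟩
  choose s0 hs0 using hs
  set k : ℕ := Γ.card + ∑ γ ∈ Γ, s0 γ with hk
  have hkR : Γ.card ≤ k := Nat.le_add_right _ _
  have hno : ∀ γ ∈ Γ, ∀ T : ℚ, (fun x : ℚ => x ^ 2 - 2)^[k - Γ.card] T ≠
      (fun x : ℚ => x ^ 2 - 2)^[6] γ := by
    intro γ hγ
    apply hs0 γ hγ
    have h1 : s0 γ ≤ ∑ γ ∈ Γ, s0 γ :=
      Finset.single_le_sum (f := s0) (fun _ _ => Nat.zero_le _) hγ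
    omega
  -- the field
  set G : ℚ → ℚ[X] := fun γ => X ^ (2 * 2 ^ k) - C γ * X ^ 2 ^ k + 1 with hG
  set f : ℚ[X] := cyclotomic (2 ^ k) ℚ * ∏ γ ∈ Γ, ((itp (X ^ 2 - C 2 : ℚ[X]) k - C γ) * G γ) with hf
  obtain ⟨L, _, _, _, _, hsplit⟩ := exists_split ℚ f
  have hitne : ∀ γ : ℚ, itp (X ^ 2 - C 2 : ℚ[X]) k - C γ ≠ 0 := by
    intro γ h0
    have h1 : itp (X ^ 2 - C 2 : ℚ[X]) k = C γ := sub_eq_zero.mp h0
    have h2 := itp_natDegree (X ^ 2 - C 2 : ℚ[X]) k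
    rw [h1, natDegree_C, hdeg] at h2
    have : 0 < 2 ^ k := by positivity
    omega
  have hGne : ∀ γ : ℚ, G γ ≠ 0 := by
    intro γ h0
    have h1 : (X ^ (2 * 2 ^ k) - C γ * X ^ 2 ^ k + 1 : ℚ[X]) = 0 := h0
    have h2 := congrArg (eval 0) h1
    simp at h2
  have hf0 : f ≠ 0 := by
    rw [hf]
    apply mul_ne_zero (cyclotomic_ne_zero _ _)
    apply Finset.prod_ne_zero_iff.mpr
    intro γ _
    exact mul_ne_zero (hitne γ) (hGne γ)
  have hfm : f.map (algebraMap ℚ L) ≠ 0 :=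
    (Polynomial.map_ne_zero_iff (algebraMap ℚ L).injective).mpr hf0
  have hcyc : (cyclotomic (2 ^ k) L).Splits := by
    have h1 : (cyclotomic (2 ^ k) ℚ).map (algebraMap ℚ L) ∣ f.map (algebraMap ℚ L) :=
      Polynomial.map_dvd _ ⟨_, rfl⟩
    have h2 := hsplit.of_dvd hfm h1
    rwa [map_cyclotomic] at h2
  have hprod : ∀ γ ∈ Γ, ((itp (X ^ 2 - C 2 : ℚ[X]) k - C γ) * G γ) ∣ f := by
    intro γ hγ
    exact (Finset.dvd_prod_of_mem (fun γ => (itp (X ^ 2 - C 2 : ℚ[X]) k - C γ) * G γ) hγ).trans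
      ⟨cyclotomic (2 ^ k) ℚ, mul_comm _ _⟩
  have hsp : ∀ γ ∈ Γ, ((itp (X ^ 2 - C 2 : ℚ[X]) k).map (algebraMap ℚ L) -
      C (algebraMap ℚ L γ)).Splits := by
    intro γ hγ
    have h1 : (itp (X ^ 2 - C 2 : ℚ[X]) k - C γ).map (algebraMap ℚ L) ∣ f.map (algebraMap ℚ L) :=
      Polynomial.map_dvd _ ((Dvd.intro _ rfl).trans (hprod γ hγ))
    have h2 := hsplit.of_dvd hfm h1
    rwa [Polynomial.map_sub, map_C] at h2
  have hGs : ∀ γ ∈ Γ, ((X ^ (2 * 2 ^ k) - C γ * X ^ 2 ^ k + 1 : ℚ[X]).map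
      (algebraMap ℚ L)).Splits := by
    intro γ hγ
    have h1 : (G γ).map (algebraMap ℚ L) ∣ f.map (algebraMap ℚ L) :=
      Polynomial.map_dvd _ ((Dvd.intro_left _ rfl).trans (hprod γ hγ))
    exact hsplit.of_dvd hfm h1
  -- the root of unity
  have hNZ : NeZero (2 ^ k) := ⟨by positivity⟩
  have hNZL : NeZero ((2 ^ k : ℕ) : L) := ⟨by
    rw [Nat.cast_ne_zero]
    positivity⟩
  obtain ⟨ζ, hζ⟩ : ∃ ζ : L, IsPrimitiveRoot ζ (2 ^ k) := by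
    have hdg : (cyclotomic (2 ^ k) L).degree ≠ 0 := by
      rw [degree_cyclotomic]
      have : 0 < Nat.totient (2 ^ k) := Nat.totient_pos.mpr (by positivity)
      intro h
      have h1 : Nat.totient (2 ^ k) = 0 := by exact_mod_cast h
      omega
    obtain ⟨ζ, hζ⟩ := hcyc.exists_eval_eq_zero hdg
    exact ⟨ζ, isRoot_cyclotomic_iff.mp hζ⟩
  -- all preimages have the form `w + w⁻¹`
  have hpre : ∀ γ ∈ Γ, ∀ x : L, (ph (X ^ 2 - C 2 : ℚ[X]))^[k] x = algebraMap ℚ L γ →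
      ∃ w : L, w ≠ 0 ∧ x = w + w⁻¹ ∧ w ^ 2 ^ k + (w ^ 2 ^ k)⁻¹ = algebraMap ℚ L γ := by
    intro γ hγ x hx
    rw [ph_cheb] at hx
    obtain ⟨w, hw0, rfl⟩ := exists_w (hGs γ hγ) hx
    rw [iter_cheb hw0] at hx
    exact ⟨w, hw0, rfl, hx⟩
  have hexw : ∀ γ : ℚ, ∃ w : L, γ ∈ Γ → w ≠ 0 ∧
      w ^ 2 ^ k + (w ^ 2 ^ k)⁻¹ = algebraMap ℚ L γ := by
    intro γ
    by_cases h : γ ∈ Γ
    · obtain ⟨x, hx⟩ := (hsp γ h).exists_eval_eq_zero (by
        intro h0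
        have h2 : ((itp (X ^ 2 - C 2 : ℚ[X]) k).map (algebraMap ℚ L) -
            C (algebraMap ℚ L γ)).natDegree = 0 := natDegree_eq_zero_iff_degree_le_zero.mpr h0.le
        rw [natDegree_sub_C, natDegree_map, itp_natDegree, hdeg] at h2
        have : 0 < 2 ^ k := by positivity
        omega)
      rw [eval_sub, eval_C, sub_eq_zero] at hx
      have hx' : (ph (X ^ 2 - C 2 : ℚ[X]))^[k] x = algebraMap ℚ L γ := by
        rw [← itp_aeval, aeval_def, ← eval_map]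
        exact hx
      obtain ⟨w, h1, -, h2⟩ := hpre γ h x hx'
      exact ⟨w, fun _ => ⟨h1, h2⟩⟩
    · exact ⟨0, fun h' => absurd h' h⟩
  choose w hw using hexw
  have hz0 : ∀ γ ∈ Γ, w γ ^ 2 ^ k ≠ 0 := fun γ hγ => pow_ne_zero _ (hw γ hγ).1
  obtain ⟨h, h1, h2, h3⟩ := exists_moving' (Γ := Γ) (z := fun γ => w γ ^ 2 ^ k) (w := w) hz0
    (fun γ hγ => (hw γ hγ).2) hkR hζ (fun γ _ => rfl) hno
  apply nat_of_one (X ^ 2 - C 2 : ℚ[X]) hd Γ L hsp h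
  intro γ hγ x hx hfix
  obtain ⟨w1, hw1, hx1, hγ1⟩ := hpre γ hγ x hx
  set z : L := w γ ^ 2 ^ k with hz
  have hz00 : z ≠ 0 := hz0 γ hγ
  have hzz : z + z⁻¹ = algebraMap ℚ L γ := (hw γ hγ).2
  -- choose the root over `z`
  obtain ⟨w2, hw2, hx2, hγ2⟩ : ∃ w2 : L, w2 ≠ 0 ∧ x = w2 + w2⁻¹ ∧ w2 ^ 2 ^ k = z := by
    have h4 : (w1 ^ 2 ^ k - z) * (w1 ^ 2 ^ k - z⁻¹) = 0 := by
      have e1 : w1 ^ 2 ^ k * (w1 ^ 2 ^ k)⁻¹ = 1 := mul_inv_cancel₀ (pow_ne_zero _ hw1)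
      have e2 : z * z⁻¹ = 1 := mul_inv_cancel₀ hz00
      have e3 : w1 ^ 2 ^ k + (w1 ^ 2 ^ k)⁻¹ = z + z⁻¹ := by rw [hγ1, hzz]
      linear_combination (w1 ^ 2 ^ k) * e3 - e1 + e2
    rcases mul_eq_zero.mp h4 with h5 | h5
    · exact ⟨w1, hw1, hx1, sub_eq_zero.mp h5⟩
    · refine ⟨w1⁻¹, inv_ne_zero hw1, by rw [inv_inv, add_comm]; exact hx1, ?_⟩
      rw [inv_pow, sub_eq_zero.mp h5, inv_inv]
  have hwγ := (hw γ hγ).1
  set c : L := w2 / w γ with hc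
  have hc1 : c ^ 2 ^ k = 1 := by
    rw [hc, div_pow, hγ2, ← hz, div_self hz00]
  have hc0 : c ≠ 0 := div_ne_zero hw2 hwγ
  have hhc : h c = c := by
    obtain ⟨i, -, hi⟩ := hζ.eq_pow_of_pow_eq_one hc1
    rw [← hi, map_pow, h2]
  have hw2c : w2 = c * w γ := by rw [hc, div_mul_cancel₀ _ hwγ]
  have hh0 : h w2 ≠ 0 := (map_ne_zero_iff h h.injective).mpr hw2
  have h6 : h w2 + (h w2)⁻¹ = w2 + w2⁻¹ := by
    rw [← map_inv₀, ← map_add, ← hx2, hfix]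
  have h7 : (h w2 - w2) * (h w2 - w2⁻¹) = 0 := by
    have e1 : h w2 * (h w2)⁻¹ = 1 := mul_inv_cancel₀ hh0
    have e2 : w2 * w2⁻¹ = 1 := mul_inv_cancel₀ hw2
    linear_combination (h w2) * h6 - e1 + e2
  rcases mul_eq_zero.mp h7 with h8 | h8
  · apply h3 γ hγ
    have h9 := sub_eq_zero.mp h8
    rw [hw2c, map_mul, hhc] at h9
    exact mul_left_cancel₀ hc0 h9
  · have h9 := sub_eq_zero.mp h8
    have h10 : z = z⁻¹ := by
      have h11 : h z = z := h1 γ hγ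
      rw [← hγ2, map_pow, h9, inv_pow, hγ2] at h11
      exact h11.symm
    have h12 : (z - 1) * (z + 1) = 0 := by
      have e2 : z * z⁻¹ = 1 := mul_inv_cancel₀ hz00
      rw [← h10] at e2
      linear_combination e2
    obtain ⟨g2, -, -, -, gm2⟩ := hΓ γ hγ
    rcases mul_eq_zero.mp h12 with h13 | h13
    · have hz1 : z = 1 := sub_eq_zero.mp h13
      rw [hz1] at hzz
      apply g2
      apply (algebraMap ℚ L).injective
      rw [← hzz]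
      norm_num
    · have hz1 : z = -1 := eq_neg_of_add_eq_zero_left h13
      rw [hz1] at hzz
      apply gm2
      apply (algebraMap ℚ L).injective
      rw [← hzz]
      norm_num

/-- every finite set of nonperiodic points of `x ^ 2 - 2` over `ℚ` -/
theorem cheb (Γ : Finset ℚ)
    (hΓ : ∀ γ ∈ Γ, ∀ n, 0 < n → (ph (X ^ 2 - C 2 : ℚ[X]))^[n] γ ≠ γ) :
    NDE.NatDens (GP (X ^ 2 - C 2 : ℚ[X]) Γ) :=
  cheb_exceptional cheb_main Γ hΓ

theorem cheb_all (Γ : Finset ℚ)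
    (hΓ : ∀ γ ∈ Γ, ∀ n, 0 < n → (ph (X ^ 2 - C 2 : ℚ[X]))^[n] γ ≠ γ) :
    NDE.NatDens (GP (X ^ 2 - C 2 : ℚ[X]) Γ) :=
  cheb Γ hΓ

end Pool.Agent.TFS2
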