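import Mathlib

set_option autoImplicit false

/-!
# The orbit of zero under `x ^ d + c` for integers `c`, with the values `-1` and `-2` of `c`
-/

namespace Pool.Agent.TFS2

/-- the orbit of zero under `x ^ d + c` grows in absolute value -/
theorem int_grow {d : ℕ} (hd : 2 ≤ d) {c : ℤ} (h0 : c ≠ 0) (h1 : c ≠ -1) (h2 : c ≠ -2) (n : ℕ) :
    |c| ≤ |(fun x : ℤ => x ^ d + c)^[n + 1] 0| ∧
      |(fun x : ℤ => x ^ d + c)^[n] 0| < |(fun x : ℤ => x ^ d + c)^[n + 1] 0| := by
  have hd0 : d ≠ 0 := by omega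
  rcases lt_or_ge 0 c with hc | hc
  · have hnn : ∀ n : ℕ, 0 ≤ (fun x : ℤ => x ^ d + c)^[n] 0 := by
      intro n
      induction n with
      | zero => simp
      | succ n ih =>
        rw [Function.iterate_succ_apply']
        have := pow_nonneg ih d
        show 0 ≤ _ ^ d + c
        linarith
    have hx := hnn n
    have hx' := hnn (n + 1)
    rw [abs_of_nonneg hx, abs_of_nonneg hx', abs_of_pos hc, Function.iterate_succ_apply']
    set x := (fun x : ℤ => x ^ d + c)^[n] 0 with hxd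
    show c ≤ x ^ d + c ∧ x < x ^ d + c
    have h3 : x ≤ x ^ d := by
      rcases hx.eq_or_lt with h | h
      · rw [← h, zero_pow hd0]
      · exact le_self_pow₀ (by omega) hd0
    constructor <;> linarith
  · have hc3 : 3 ≤ |c| := by
      rw [abs_of_nonpos hc]; omega
    induction n with
    | zero =>
      have e : (fun x : ℤ => x ^ d + c)^[0 + 1] 0 = c := by
        show (0 : ℤ) ^ d + c = c
        rw [zero_pow hd0, zero_add]
      rw [e]
      refine ⟨le_rfl, ?_⟩
      show |(0 : ℤ)| < |c|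
      rw [abs_zero]; linarith
    | succ n ih =>
      have h3 := ih.1
      rw [Function.iterate_succ_apply' _ (n + 1)]
      set x := (fun x : ℤ => x ^ d + c)^[n + 1] 0 with hxd
      show |c| ≤ |x ^ d + c| ∧ |x| < |x ^ d + c|
      have h4 : |x| ^ d - |c| ≤ |x ^ d + c| := by
        have h5 := abs_sub_abs_le_abs_sub (x ^ d) (-c)
        rw [abs_neg, sub_neg_eq_add, abs_pow] at h5
        exact h5
      have h6 : |x| ^ 2 ≤ |x| ^ d := pow_le_pow_right₀ (by linarith) hd
      have h7 : |x| < |x ^ d + c| := by nlinarith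
      exact ⟨by linarith, h7⟩

/-- `c = -1` and `d` odd: the orbit of zero is strictly decreasing -/
theorem int_neg_one {d : ℕ} (hd : 2 ≤ d) (hodd : Odd d) (n : ℕ) :
    (fun x : ℤ => x ^ d + (-1))^[n] 0 ≤ 0 ∧
      (fun x : ℤ => x ^ d + (-1))^[n + 1] 0 < (fun x : ℤ => x ^ d + (-1))^[n] 0 := by
  have hstep : ∀ x : ℤ, x ≤ 0 → x ^ d + (-1) < x := by
    intro x hx
    have h1 : x ^ d = -((-x) ^ d) := by rw [hodd.neg_pow]; ring
    have h2 : -x ≤ (-x) ^ d := by
      rcases hx.eq_or_lt with h | h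
      · rw [h]; simp only [neg_zero]; rw [zero_pow (by omega)]
      · exact le_self_pow₀ (by omega) (by omega)
    linarith
  induction n with
  | zero =>
    refine ⟨le_rfl, ?_⟩
    show (0 : ℤ) ^ d + (-1) < 0
    rw [zero_pow (by omega)]; norm_num
  | succ n ih =>
    have h1 : (fun x : ℤ => x ^ d + (-1))^[n + 1] 0 ≤ 0 := ih.2.le.trans ih.1
    refine ⟨h1, ?_⟩
    rw [Function.iterate_succ_apply' _ (n + 1)]
    exact hstep _ h1

/-- `c = -2` and `d` at least three: the orbit of zero grows in absolute value -/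
theorem int_neg_two {d : ℕ} (hd : 3 ≤ d) (n : ℕ) :
    2 ≤ |(fun x : ℤ => x ^ d + (-2))^[n + 1] 0| ∧
      |(fun x : ℤ => x ^ d + (-2))^[n] 0| < |(fun x : ℤ => x ^ d + (-2))^[n + 1] 0| := by
  induction n with
  | zero =>
    have e : (fun x : ℤ => x ^ d + (-2))^[0 + 1] 0 = -2 := by
      show (0 : ℤ) ^ d + (-2) = -2
      rw [zero_pow (by omega), zero_add]
    rw [e]
    refine ⟨by norm_num, ?_⟩
    show |(0 : ℤ)| < |(-2 : ℤ)|
    norm_num
  | succ n ih =>
    have h3 := ih.1
    rw [Function.iterate_succ_apply' _ (n + 1)]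
    set x := (fun x : ℤ => x ^ d + (-2))^[n + 1] 0 with hxd
    show 2 ≤ |x ^ d + (-2)| ∧ |x| < |x ^ d + (-2)|
    have h4 : |x| ^ d - 2 ≤ |x ^ d + (-2)| := by
      have h5 := abs_sub_abs_le_abs_sub (x ^ d) 2
      rw [abs_pow] at h5
      simpa [sub_eq_add_neg] using h5
    have h6 : |x| ^ 3 ≤ |x| ^ d := pow_le_pow_right₀ (by linarith) hd
    have h8 : |x| * 4 ≤ |x| ^ 3 := by nlinarith [mul_nonneg (abs_nonneg x) (abs_nonneg x)]
    have h7 : |x| < |x ^ d + (-2)| := by linarith
    exact ⟨by linarith, h7⟩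

theorem int_orbit2 {d : ℕ} (hd : 2 ≤ d) {c : ℤ} (h0 : c ≠ 0) (h1 : c = -1 → Odd d)
    (h2 : c = -2 → 3 ≤ d) (i j : ℕ) (hij : i < j) :
    (fun x : ℚ => x ^ d + c)^[i] 0 ≠ (fun x : ℚ => x ^ d + c)^[j] 0 := by
  have hcast : ∀ n : ℕ, (fun x : ℚ => x ^ d + c)^[n] 0 =
      (((fun x : ℤ => x ^ d + c)^[n] 0 : ℤ) : ℚ) := by
    intro n
    induction n with
    | zero => simp
    | succ n ih => rw [Function.iterate_succ_apply', Function.iterate_succ_apply', ih]; push_cast; rfl
  intro h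
  rw [hcast, hcast] at h
  have h3 := Int.cast_injective (α := ℚ) h
  by_cases hc1 : c = -1
  · subst hc1
    have hanti : StrictAnti fun n : ℕ => (fun x : ℤ => x ^ d + (-1))^[n] 0 :=
      strictAnti_nat_of_succ_lt fun n => (int_neg_one hd (h1 rfl) n).2
    have h4 := hanti hij
    simp only at h4
    rw [h3] at h4
    exact lt_irrefl _ h4
  · have hmono : StrictMono fun n : ℕ => |(fun x : ℤ => x ^ d + c)^[n] 0| := by
      refine strictMono_nat_of_lt_succ fun n => ?_
      by_cases hc2 : c = -2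
      · subst hc2
        exact (int_neg_two (h2 rfl) n).2
      · exact (int_grow hd h0 hc1 hc2 n).2
    have h4 := hmono hij
    simp only at h4
    rw [h3] at h4
    exact lt_irrefl _ h4

end Pool.Agent.TFS2
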