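import Pool.Agent.TFS2.Auto

/-!
# All power maps over the rational numbers: finite sets of nonperiodic points
-/

set_option autoImplicit false

open IsDedekindDomain NumberField Polynomial

namespace Pool.Agent.TFS2

open Pool.Agent.TameArb Pool.Agent.NDE

theorem pow_or_prime {p n : ℕ} (hn : n ≠ 0) :
    (∃ k, n = p ^ k) ∨ ∃ l, Nat.Prime l ∧ l ∣ n ∧ l ≠ p := by
  by_cases h : ∃ l, Nat.Prime l ∧ l ∣ n ∧ l ≠ p
  · exact Or.inr h
  · left
    exact ⟨_, Nat.eq_prime_pow_of_unique_prime_dvd hn (fun {l} hl hd => by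
      by_contra hne
      exact h ⟨l, hl, hd, hne⟩)⟩

/-- the places used for the points that are not powers of `p` up to sign -/
def Pl (p : ℕ) (v : HeightOneSpectrum (𝓞 ℚ)) : Prop :=
  ∃ l : ℕ, l.Prime ∧ v.valuation ℚ (l : ℚ) < 1 ∧ Nat.Coprime p l ∧ v.valuation ℚ (p : ℚ) = 1

theorem exists_pl {p l : ℕ} (hp : p.Prime) (hl : l.Prime) (hne : l ≠ p) (γ : ℚ) (h : l ∣ γ.den) :
    ∃ v : HeightOneSpectrum (𝓞 ℚ), Pl p v ∧ 1 < v.valuation ℚ γ := by
  obtain ⟨v, h1, h2⟩ := Pool.Agent.Arb.exists_at_prime hl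
  have hv : v.valuation ℚ (l : ℚ) < 1 := by
    rw [h1, ← WithZero.exp_zero, WithZero.exp_lt_exp]
    norm_num
  have hcop : Nat.Coprime p l := (Nat.coprime_primes hp hl).mpr (Ne.symm hne)
  refine ⟨v, ⟨l, hl, hv, hcop, ?_⟩, ?_⟩
  · have h3 := h2 (p : ℤ) (by
      intro hd
      have h4 : l ∣ p := by exact_mod_cast hd
      rcases (Nat.dvd_prime hp).mp h4 with h5 | h5
      · exact hl.one_lt.ne' h5
      · exact hne h5)
    simpa using h3
  have hnum : v.valuation ℚ (γ.num : ℚ) = 1 := by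
    apply h2
    intro hd
    have h3 : l ∣ γ.num.natAbs := Int.natCast_dvd.mp hd
    have h4 := Nat.dvd_gcd h3 h
    rw [γ.reduced] at h4
    exact hl.one_lt.ne' (Nat.dvd_one.mp h4)
  have hden : v.valuation ℚ (γ.den : ℚ) < 1 := by
    obtain ⟨c, hc⟩ := h
    rw [hc]
    push_cast
    rw [map_mul, mul_comm]
    exact mul_lt_one_aux (natCast_le c) hv
  have e : v.valuation ℚ γ * v.valuation ℚ (γ.den : ℚ) = 1 := by
    rw [← map_mul, Rat.mul_den_eq_num, hnum]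
  by_contra hc
  have := mul_lt_one_aux (not_lt.mp hc) hden
  rw [e] at this
  exact lt_irrefl _ this

theorem point_cases' {p : ℕ} (hp : p.Prime) (γ : ℚ) (h0 : γ ≠ 0) :
    ∃ γ' : ℚ, (γ' = γ ∨ γ' = γ⁻¹) ∧
    ((∃ v : HeightOneSpectrum (𝓞 ℚ), Pl p v ∧ 1 < v.valuation ℚ γ') ∨
      ∃ k : ℕ, γ' = (p : ℚ) ^ k ∨ γ' = -(p : ℚ) ^ k) := by
  rcases pow_or_prime (p := p) γ.den_nz with ⟨b, hb⟩ | ⟨l, hl, hd, ho⟩
  · rcases pow_or_prime (p := p) (n := γ.num.natAbs) (by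
      intro h
      exact h0 (Rat.num_eq_zero.mp (Int.natAbs_eq_zero.mp h))) with ⟨a, ha⟩ | ⟨l, hl, hd, ho⟩
    · have hnum : γ.num = (p : ℤ) ^ a ∨ γ.num = -(p : ℤ) ^ a := by
        rcases Int.natAbs_eq γ.num with h | h
        · left; rw [h, ha]; push_cast; rfl
        · right; rw [h, ha]; push_cast; rfl
      rcases Nat.eq_zero_or_pos b with rfl | hbpos
      · refine ⟨γ, Or.inl rfl, Or.inr ⟨a, ?_⟩⟩
        have h1 : γ = γ.num := by
          have := (Rat.den_eq_one_iff γ).mp (by rw [hb, pow_zero])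
          exact this.symm
        rcases hnum with h | h
        · left; rw [h1, h]; push_cast; rfl
        · right; rw [h1, h]; push_cast; rfl
      · have ha0 : a = 0 := by
          by_contra hne
          have h2a : p ∣ γ.num.natAbs := by rw [ha]; exact dvd_pow_self p hne
          have h2b : p ∣ γ.den := by rw [hb]; exact dvd_pow_self p hbpos.ne'
          have h4 := Nat.dvd_gcd h2a h2b
          rw [γ.reduced] at h4
          exact hp.one_lt.ne' (Nat.dvd_one.mp h4)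
        subst ha0
        refine ⟨γ⁻¹, Or.inr rfl, Or.inr ⟨b, ?_⟩⟩
        have hden : (γ.den : ℚ) = (p : ℚ) ^ b := by rw [hb]; push_cast; rfl
        have h1 : γ⁻¹ = (γ.den : ℚ) / γ.num := by
          conv_lhs => rw [← Rat.num_div_den γ, inv_div]
        rw [h1, hden]
        rcases hnum with h | h
        · left; rw [h]; simp
        · right; rw [h]; push_cast; ring
    · refine ⟨γ⁻¹, Or.inr rfl, Or.inl (exists_pl hp hl ho _ ?_)⟩
      rw [Rat.den_inv_of_ne_zero h0]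
      exact hd
  · exact ⟨γ, Or.inl rfl, Or.inl (exists_pl hp hl ho _ hd)⟩

/-- a prime modulo which `p` has order `p ^ (m + 1)` -/
theorem exists_order {p : ℕ} (hp : p.Prime) (m : ℕ) :
    ∃ q : ℕ, q.Prime ∧ (p : ZMod q) ≠ 0 ∧ orderOf (p : ZMod q) = p ^ (m + 1) := by
  set A : ℕ := ∑ i ∈ Finset.range p, (p ^ p ^ m) ^ i with hA
  have hA2 : p ^ p ^ m ≤ A := by
    have h1 : (p ^ p ^ m) ^ 1 ≤ A := Finset.single_le_sum (f := fun i => (p ^ p ^ m) ^ i)
      (fun _ _ => Nat.zero_le _) (Finset.mem_range.mpr hp.one_lt)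
    rwa [pow_one] at h1
  have hpp : p ≤ p ^ p ^ m := Nat.le_self_pow (pow_pos hp.pos m).ne' p
  have hA1 : A ≠ 1 := by
    have := hp.two_le
    omega
  obtain ⟨q, hq, hqA⟩ := Nat.exists_prime_and_dvd hA1
  haveI : Fact q.Prime := ⟨hq⟩
  have hA0 : ∑ i ∈ Finset.range p, ((p : ZMod q) ^ p ^ m) ^ i = 0 := by
    have h1 : ((A : ℕ) : ZMod q) = 0 := (ZMod.natCast_eq_zero_iff A q).mpr hqA
    rw [hA] at h1
    push_cast at h1
    exact h1
  have ha0 : (p : ZMod q) ≠ 0 := by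
    intro h
    rw [h, zero_pow (pow_pos hp.pos m).ne'] at hA0
    have h1 : ∑ i ∈ Finset.range p, (0 : ZMod q) ^ i = 1 := by
      obtain ⟨r, hr⟩ : ∃ r, p = r + 1 := ⟨p - 1, by have := hp.pos; omega⟩
      rw [hr, Finset.sum_range_succ']
      simp
    rw [h1] at hA0
    exact one_ne_zero hA0
  have hx1 : ¬ (p : ZMod q) ^ p ^ m = 1 := by
    intro h
    rw [h] at hA0
    simp at hA0
    exact ha0 hA0
  have hx2 : (p : ZMod q) ^ p ^ (m + 1) = 1 := by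
    have h1 := geom_sum_mul ((p : ZMod q) ^ p ^ m) p
    rw [hA0, zero_mul] at h1
    rw [pow_succ, pow_mul]
    exact (sub_eq_zero.mp h1.symm)
  haveI : Fact p.Prime := ⟨hp⟩
  exact ⟨q, hq, ha0, orderOf_eq_prime_pow hx1 hx2⟩

/-- the inverse of a point modulo `v` -/
theorem per_inv' {K : Type} [Field K] (v : Valuation K (WithZero (Multiplicative ℤ))) {d : ℕ}
    (hd : 2 ≤ d) {γ : K} (h0 : γ ≠ 0) (h1 : v γ⁻¹ ≤ 1) (h : ¬ PerMod v (X ^ d : K[X]) γ⁻¹) :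
    v γ ≤ 1 ∧ ¬ PerMod v (X ^ d : K[X]) γ := by
  have h2 : v γ⁻¹ = 1 := by
    rcases lt_or_eq_of_le h1 with h3 | h3
    · exfalso
      refine h ⟨1, one_pos, ?_⟩
      rw [iter_d, pow_one]
      apply Valuation.map_sub_lt
      · rw [map_pow]
        exact pow_lt_one₀ zero_le h3 (by omega)
      · exact h3
    · exact h3
  have h3 : v γ = 1 := by
    rw [map_inv₀] at h2
    exact inv_eq_one.mp h2
  refine ⟨h3.le, ?_⟩
  rintro ⟨n, hn, hp⟩
  refine h ⟨n, hn, ?_⟩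
  rw [iter_d] at hp ⊢
  have e : γ⁻¹ ^ d ^ n - γ⁻¹ = -(γ⁻¹ ^ d ^ n * γ⁻¹) * (γ ^ d ^ n - γ) := by
    have e1 : γ⁻¹ ^ d ^ n * γ ^ d ^ n = 1 := by rw [← mul_pow, inv_mul_cancel₀ h0, one_pow]
    have e2 : γ⁻¹ * γ = 1 := inv_mul_cancel₀ h0
    linear_combination γ⁻¹ * e1 - (γ⁻¹ ^ d ^ n) * e2
  rw [e, map_mul, Valuation.map_neg, map_mul, map_pow, h2, one_pow, one_mul, one_mul]
  exact hp

/-- the powers of `p` up to sign modulo a prime at which `p` has order `p ^ (m + 1)` -/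
theorem not_per_pow {p : ℕ} (hp : p.Prime) (hp2 : p ≠ 2) {q m : ℕ} (hq : q.Prime)
    (ha0 : (p : ZMod q) ≠ 0) (hord : orderOf (p : ZMod q) = p ^ (m + 1))
    {v : HeightOneSpectrum (𝓞 ℚ)}
    (hv : ∀ z : ℤ, ¬ (q : ℤ) ∣ z → v.valuation ℚ (z : ℚ) = 1) {k : ℕ} (hk0 : 0 < k)
    (hk : k < p ^ (m + 1)) {u : ℚ} (hu : u = (p : ℚ) ^ k ∨ u = -(p : ℚ) ^ k) :
    ¬ PerMod (v.valuation ℚ) (X ^ p : ℚ[X]) u := by
  rintro ⟨n, hn, h⟩
  rw [iter_d] at h
  haveI : Fact q.Prime := ⟨hq⟩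
  have hodd : Odd (p ^ n) := (hp.odd_of_ne_two hp2).pow
  have h1 : v.valuation ℚ ((((p : ℤ) ^ k) ^ p ^ n - (p : ℤ) ^ k : ℤ) : ℚ) < 1 := by
    push_cast
    rcases hu with rfl | rfl
    · exact h
    · rw [hodd.neg_pow] at h
      have e : ((p : ℚ) ^ k) ^ p ^ n - (p : ℚ) ^ k =
          -(-((p : ℚ) ^ k) ^ p ^ n - -(p : ℚ) ^ k) := by ring
      rw [e, Valuation.map_neg]
      exact h
  have h2 : (q : ℤ) ∣ ((p : ℤ) ^ k) ^ p ^ n - (p : ℤ) ^ k := by
    by_contra hc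
    rw [hv _ hc] at h1
    exact lt_irrefl _ h1
  have h3 : ((p : ZMod q) ^ k) ^ p ^ n = (p : ZMod q) ^ k := by
    have h4 := (ZMod.intCast_zmod_eq_zero_iff_dvd _ q).mpr h2
    push_cast at h4
    exact sub_eq_zero.mp h4
  obtain ⟨s, hs⟩ : ∃ s, p ^ n = s + 1 := ⟨p ^ n - 1, by
    have : 0 < p ^ n := pow_pos hp.pos n
    omega⟩
  have h5 : (p : ZMod q) ^ (k * s) = 1 := by
    rw [hs, pow_succ, ← pow_mul] at h3
    exact mul_right_cancel₀ (pow_ne_zero k ha0) (by rw [h3, one_mul])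
  have h6 := orderOf_dvd_of_pow_eq_one h5
  rw [hord] at h6
  have hcop : Nat.Coprime (p ^ (m + 1)) s := by
    apply Nat.Coprime.pow_left
    rw [hp.coprime_iff_not_dvd]
    intro hd
    have h7 : p ∣ p ^ n := dvd_pow_self p hn.ne'
    rw [hs] at h7
    have h8 := (Nat.dvd_add_right hd).mp h7
    exact hp.one_lt.ne' (Nat.dvd_one.mp h8)
  have h9 := hcop.dvd_of_dvd_mul_right h6
  exact absurd (Nat.le_of_dvd hk0 h9) (not_le.mpr hk)

theorem pow_odd {p : ℕ} (hp : p.Prime) (hp2 : p ≠ 2) (Γ : Finset ℚ)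
    (h0 : ∀ γ ∈ Γ, γ ≠ 0) (h1 : ∀ γ ∈ Γ, γ ≠ 1) (h1' : ∀ γ ∈ Γ, γ ≠ -1) :
    NDE.NatDens (GP (X ^ p : ℚ[X]) Γ) := by
  classical
  have hd : (X ^ p : ℚ[X]).natDegree = p := natDegree_X_pow p
  have hd2 : 2 ≤ (X ^ p : ℚ[X]).natDegree := by rw [hd]; exact hp.two_le
  have hex : ∀ γ : ℚ, ∃ γ' : ℚ, γ ∈ Γ → (γ' = γ ∨ γ' = γ⁻¹) ∧
    ((∃ v : HeightOneSpectrum (𝓞 ℚ), Pl p v ∧ 1 < v.valuation ℚ γ') ∨
      ∃ k : ℕ, γ' = (p : ℚ) ^ k ∨ γ' = -(p : ℚ) ^ k) := by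
    intro γ
    by_cases h : γ ∈ Γ
    · obtain ⟨γ', h'⟩ := point_cases' hp γ (h0 γ h)
      exact ⟨γ', fun _ => h'⟩
    · exact ⟨γ, fun h' => absurd h' h⟩
  choose g hg using hex
  obtain ⟨q0, hq0⟩ : ∃ q0 : HeightOneSpectrum (𝓞 ℚ), Pl p q0 := by
    obtain ⟨v, h1, -⟩ := exists_pl hp Nat.prime_two (Ne.symm hp2) (1 / 2 : ℚ) (by norm_num)
    exact ⟨v, h1⟩
  have hex2 : ∀ γ : ℚ, ∃ v : HeightOneSpectrum (𝓞 ℚ), ∃ k : ℕ, Pl p v ∧
      (γ ∈ Γ → 1 < v.valuation ℚ (g γ) ∨ g γ = (p : ℚ) ^ k ∨ g γ = -(p : ℚ) ^ k) := by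
    intro γ
    by_cases h : γ ∈ Γ
    · rcases (hg γ h).2 with ⟨v, hv, h2⟩ | ⟨k, hk⟩
      · exact ⟨v, 0, hv, fun _ => Or.inl h2⟩
      · exact ⟨q0, k, hq0, fun _ => Or.inr hk⟩
    · exact ⟨q0, 0, hq0, fun h' => absurd h' h⟩
  choose V k hV hk using hex2
  have hg0 : ∀ γ ∈ Γ, g γ ≠ 0 := by
    intro γ hγ
    rcases (hg γ hγ).1 with e | e
    · rw [e]; exact h0 γ hγ
    · rw [e]; exact inv_ne_zero (h0 γ hγ)
  set m : ℕ := ∑ γ ∈ Γ, k γ with hm
  have hkm : ∀ γ ∈ Γ, k γ < p ^ (m + 1) := by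
    intro γ hγ
    have h2 : k γ ≤ m := Finset.single_le_sum (f := k) (fun _ _ => Nat.zero_le _) hγ
    have h3 : m + 1 < p ^ (m + 1) := Nat.lt_pow_self hp.one_lt
    omega
  obtain ⟨q, hq, ha0, hord⟩ := exists_order hp m
  obtain ⟨v0, hv1, hv2⟩ := Pool.Agent.Arb.exists_at_prime hq
  obtain ⟨n, hn⟩ := exists_auto' (φ := (X ^ p : ℚ[X])) hd2 (Γ.image g) (Γ.image V)
    (by
      intro v hv
      obtain ⟨γ, -, rfl⟩ := Finset.mem_image.mp hv
      obtain ⟨l, hl, h3, h4, h5⟩ := hV γ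
      refine ⟨l, hl, h3, fun i hi hMi γ' hγ' => ?_⟩
      obtain ⟨δ, hδ, rfl⟩ := Finset.mem_image.mp hγ'
      exact loc_pow hp.two_le h5 h4 hi hMi (hg0 δ hδ))
    v0 (good_pow p) (by
      intro γ' hγ'
      obtain ⟨γ, hγ, rfl⟩ := Finset.mem_image.mp hγ'
      rcases hk γ hγ with h | h
      · left
        exact ⟨V γ, Finset.mem_image_of_mem V hγ, h⟩
      · right
        have hkpos : 0 < k γ := by
          rcases Nat.eq_zero_or_pos (k γ) with h3 | h3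
          · exfalso
            rw [h3, pow_zero] at h
            rcases (hg γ hγ).1 with e | e
            · rcases h with h | h
              · exact h1 γ hγ (e.symm.trans h)
              · exact h1' γ hγ (e.symm.trans h)
            · rcases h with h | h
              · apply h1 γ hγ
                rw [h] at e
                exact (inv_eq_one.mp e.symm)
              · apply h1' γ hγ
                rw [h] at e
                rw [← inv_inv γ, ← e]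
                norm_num
          · exact h3
        refine ⟨?_, not_per_pow hp hp2 hq ha0 hord hv2 hkpos (hkm γ hγ) h⟩
        have hpow : v0.valuation ℚ ((p : ℚ) ^ k γ) ≤ 1 := by
          rw [map_pow]
          exact pow_le_one₀ zero_le (natCast_le p)
        rcases h with h | h
        · rw [h]; exact hpow
        · rw [h, Valuation.map_neg]; exact hpow)
  have hmain := nat_of_auto (X ^ p : ℚ[X]) hd2 (Γ.image g) hn
  refine hmain.mono Set.finite_empty ?_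
  rw [Set.union_empty]
  rintro v ⟨hv, h⟩
  refine ⟨hv, fun γ hγ => ?_⟩
  have h3 := h (g γ) (Finset.mem_image_of_mem g hγ)
  rcases (hg γ hγ).1 with e | e
  · rw [e] at h3
    exact h3
  · rw [e] at h3
    exact per_inv' _ hp.two_le (h0 γ hγ) h3.1 h3.2

/-- periodic for `x ^ d` modulo `v` implies periodic for `x ^ p` modulo `v` -/
theorem per_of_dvd {K : Type} [Field K] (v : Valuation K (WithZero (Multiplicative ℤ))) {p d : ℕ}
    (hp : p.Prime) (hpd : p ∣ d) (hd : 2 ≤ d) {γ : K} (h1 : v γ ≤ 1)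
    (h : PerMod v (X ^ d : K[X]) γ) : PerMod v (X ^ p : K[X]) γ := by
  rcases lt_or_eq_of_le h1 with h2 | h2
  · refine ⟨1, one_pos, ?_⟩
    rw [iter_d, pow_one]
    apply Valuation.map_sub_lt
    · rw [map_pow]
      exact pow_lt_one₀ zero_le h2 hp.ne_zero
    · exact h2
  obtain ⟨n, hn, h3⟩ := h
  rw [iter_d] at h3
  obtain ⟨s, hs⟩ : ∃ s, d ^ n = s + 1 := ⟨d ^ n - 1, by
    have : 0 < d ^ n := by positivity
    omega⟩
  have hs0 : 0 < s := by
    have : d ≤ d ^ n := Nat.le_self_pow hn.ne' d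
    omega
  have h4 : v (γ ^ s - 1) < 1 := by
    have e : γ ^ d ^ n - γ = (γ ^ s - 1) * γ := by rw [hs]; ring
    rw [e, map_mul, h2, mul_one] at h3
    exact h3
  have hcop : Nat.Coprime p s := by
    rw [hp.coprime_iff_not_dvd]
    intro hd'
    have h7 : p ∣ d ^ n := hpd.trans (dvd_pow_self d hn.ne')
    rw [hs] at h7
    have h8 := (Nat.dvd_add_right hd').mp h7
    exact hp.one_lt.ne' (Nat.dvd_one.mp h8)
  have h5 := Nat.ModEq.pow_totient hcop
  refine ⟨Nat.totient s, Nat.totient_pos.mpr hs0, ?_⟩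
  rw [iter_d]
  have h6 : s ∣ p ^ Nat.totient s - 1 :=
    (Nat.modEq_iff_dvd' (Nat.one_le_pow _ _ hp.pos)).mp h5.symm
  obtain ⟨c, hc⟩ := h6
  have h7 : p ^ Nat.totient s = s * c + 1 := by
    have : 0 < p ^ Nat.totient s := pow_pos hp.pos _
    omega
  have h8 := pow_cong v (x := γ ^ s) (y := 1) (by rw [map_pow, h2, one_pow]) (by rw [map_one]) h4 c
  have e : γ ^ p ^ Nat.totient s - γ = ((γ ^ s) ^ c - 1 ^ c) * γ := by
    rw [h7, one_pow, ← pow_mul]; ring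
  rw [e, map_mul, h2, mul_one]
  exact h8

/-- every power map over the rational numbers -/
theorem pow_all {d : ℕ} (hd : 2 ≤ d) (Γ : Finset ℚ)
    (hΓ : ∀ γ ∈ Γ, ∀ n, 0 < n → (ph (X ^ d : ℚ[X]))^[n] γ ≠ γ) :
    NDE.NatDens (GP (X ^ d : ℚ[X]) Γ) := by
  have h0 : ∀ γ ∈ Γ, γ ≠ 0 := by
    rintro γ hγ rfl
    apply hΓ 0 hγ 1 one_pos
    rw [iter_d, pow_one, zero_pow (by omega)]
  have h1 : ∀ γ ∈ Γ, γ ≠ 1 := by
    rintro γ hγ rfl
    apply hΓ 1 hγ 1 one_pos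
    rw [iter_d, one_pow]
  obtain ⟨p, hp, hpd, hmain⟩ : ∃ p : ℕ, p.Prime ∧ p ∣ d ∧ NDE.NatDens (GP (X ^ p : ℚ[X]) Γ) := by
    rcases Nat.even_or_odd d with he | ho
    · refine ⟨2, Nat.prime_two, he.two_dvd, ?_⟩
      apply pow_two
      intro γ hγ n hn h
      rw [iter_sq] at h
      obtain ⟨s, hs⟩ : ∃ s, 2 ^ n = 2 * s + 1 + 1 := by
        obtain ⟨m, rfl⟩ : ∃ m, n = m + 1 := ⟨n - 1, by omega⟩
        refine ⟨2 ^ m - 1, ?_⟩
        have : 1 ≤ 2 ^ m := Nat.one_le_two_pow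
        rw [pow_succ]
        omega
      have h2 : γ ^ (2 * s + 1) = 1 := by
        rw [hs, pow_succ] at h
        exact mul_right_cancel₀ (h0 γ hγ) (by rw [h, one_mul])
      rcases (pow_eq_one_iff_cases).mp h2 with h3 | h3 | h3
      · omega
      · exact h1 γ hγ h3
      · have := h3.2
        rw [Nat.even_iff] at this
        omega
    · have h1' : ∀ γ ∈ Γ, γ ≠ -1 := by
        rintro γ hγ rfl
        apply hΓ (-1) hγ 1 one_pos
        rw [iter_d, pow_one]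
        exact ho.neg_one_pow
      have hne : d ≠ 1 := by omega
      refine ⟨d.minFac, Nat.minFac_prime hne, Nat.minFac_dvd d, ?_⟩
      apply pow_odd (Nat.minFac_prime hne) _ Γ h0 h1 h1'
      intro h2
      have h3 : 2 ∣ d := by rw [← h2]; exact Nat.minFac_dvd d
      rw [← Nat.not_even_iff_odd] at ho
      exact ho (even_iff_two_dvd.mpr h3)
  refine hmain.mono Set.finite_empty ?_
  rw [Set.union_empty]
  rintro v ⟨-, h⟩
  exact ⟨good_pow d, fun γ hγ => ⟨(h γ hγ).1, fun h' =>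
    (h γ hγ).2 (per_of_dvd _ hp hpd hd (h γ hγ).1 h')⟩⟩

end Pool.Agent.TFS2
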