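import Pool.Agent.Arb.Rat2
import Pool.Agent.NDE.Pol

/-!
# The map `x ^ 2` over the rational numbers: finite sets of nonperiodic points
-/

set_option autoImplicit false

open IsDedekindDomain NumberField Polynomial

namespace Pool.Agent.TFS2

open Pool.Agent.TameArb Pool.Agent.NDE

section Val

variable {K : Type} [Field K] (v : Valuation K (WithZero (Multiplicative ℤ)))

theorem iter_sq (x : K) (n : ℕ) : (ph (X ^ 2 : K[X]))^[n] x = x ^ 2 ^ n := by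
  have e : (ph (X ^ 2 : K[X]) : K → K) = fun y => y ^ 2 := by
    funext y
    rw [ph_eq_eval]
    simp
  induction n with
  | zero => simp
  | succ n ih =>
    rw [Function.iterate_succ_apply', ih, e]
    show (x ^ 2 ^ n) ^ 2 = x ^ 2 ^ (n + 1)
    rw [← pow_mul, ← pow_succ]

theorem pow_cong {x y : K} (hx : v x ≤ 1) (hy : v y ≤ 1) (h : v (x - y) < 1) (s : ℕ) :
    v (x ^ s - y ^ s) < 1 := by
  induction s with
  | zero => simp
  | succ s ih =>
    have e : x ^ (s + 1) - y ^ (s + 1) = x ^ s * (x - y) + (x ^ s - y ^ s) * y := by ring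
    rw [e]
    apply Valuation.map_add_lt
    · rw [map_mul]
      refine mul_lt_one_aux ?_ h
      rw [map_pow]
      exact pow_le_one₀ zero_le hx
    · rw [map_mul, mul_comm]
      exact mul_lt_one_aux hy ih

/-- a point with a power congruent to `-1` is not periodic -/
theorem not_per (h2 : v 2 = 1) {u : K} (hu : v u = 1) {j : ℕ} (hj : v (u ^ j + 1) < 1) :
    ¬ PerMod v (X ^ 2 : K[X]) u := by
  rintro ⟨n, hn, h⟩
  rw [iter_sq] at h
  obtain ⟨s, hs⟩ : ∃ s, 2 ^ n = 2 * s + 1 + 1 := by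
    obtain ⟨m, rfl⟩ : ∃ m, n = m + 1 := ⟨n - 1, by omega⟩
    refine ⟨2 ^ m - 1, ?_⟩
    have : 1 ≤ 2 ^ m := Nat.one_le_two_pow
    rw [pow_succ]
    omega
  have e1 : u ^ 2 ^ n - u = (u ^ (2 * s + 1) - 1 ^ (2 * s + 1)) * u := by
    rw [hs]; ring
  rw [e1, map_mul, hu, mul_one] at h
  -- `u ^ ((2 s + 1) j)` is congruent to `1` and to `-1`
  have h3 : v (u ^ (2 * s + 1) - 1) < 1 := by simpa using h
  have hus : v (u ^ (2 * s + 1)) ≤ 1 := by rw [map_pow, hu, one_pow]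
  have h4 := pow_cong v hus (by rw [map_one]) h3 j
  have huj : v (u ^ j) ≤ 1 := by rw [map_pow, hu, one_pow]
  have h5 : v (u ^ j - (-1)) < 1 := by rw [sub_neg_eq_add]; exact hj
  have h6 := pow_cong v huj (by rw [Valuation.map_neg, map_one]) h5 (2 * s + 1)
  have e2 : (2 : K) = ((u ^ j) ^ (2 * s + 1) - (-1) ^ (2 * s + 1)) -
      ((u ^ (2 * s + 1)) ^ j - 1 ^ j) := by
    rw [Odd.neg_one_pow ⟨s, rfl⟩, one_pow, ← pow_mul, ← pow_mul, mul_comm j (2 * s + 1)]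
    ring
  have h7 : v 2 < 1 := by
    rw [e2]
    exact Valuation.map_sub_lt _ h6 h4
  rw [h2] at h7
  exact lt_irrefl _ h7

/-- the powers of two, if `2 ^ 2 ^ m` is congruent to `-1` -/
theorem pow_two_neg (h2 : v 2 = 1) {m : ℕ} (hm : v ((2 : K) ^ 2 ^ m + 1) < 1) {k : ℕ}
    (hk0 : 0 < k) (hk : k < 2 ^ m) : ∃ j, Even j ∧ v (((2 : K) ^ k) ^ j + 1) < 1 := by
  obtain ⟨t, w, hw, rfl⟩ : ∃ t w, Odd w ∧ k = 2 ^ t * w := by
    obtain ⟨t, w, hw, e⟩ := Nat.exists_eq_two_pow_mul_odd hk0.ne'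
    exact ⟨t, w, hw, e⟩
  have hw1 : 1 ≤ w := hw.pos
  have ht : t < m := by
    by_contra hc
    have h1 : 2 ^ m ≤ 2 ^ t := Nat.pow_le_pow_right (by norm_num) (not_lt.mp hc)
    have h3 : 2 ^ t ≤ 2 ^ t * w := Nat.le_mul_of_pos_right _ hw1
    omega
  obtain ⟨r, rfl⟩ : ∃ r, m = t + r + 1 := ⟨m - t - 1, by omega⟩
  refine ⟨2 ^ (r + 1), ⟨2 ^ r, by ring⟩, ?_⟩
  have h5 : v ((2 : K) ^ 2 ^ (t + r + 1) - (-1)) < 1 := by rw [sub_neg_eq_add]; exact hm
  have h6 := pow_cong v (by rw [map_pow, h2, one_pow]) (by rw [Valuation.map_neg, map_one]) h5 w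
  rw [Odd.neg_one_pow hw, sub_neg_eq_add] at h6
  have e : ((2 : K) ^ (2 ^ t * w)) ^ 2 ^ (r + 1) = ((2 : K) ^ 2 ^ (t + r + 1)) ^ w := by
    rw [← pow_mul, ← pow_mul]
    congr 1
    ring
  rw [e]
  exact h6

/-- periodicity of inverses -/
theorem per_inv {γ : K} (h0 : γ ≠ 0) (h1 : v γ⁻¹ ≤ 1) (h : ¬ PerMod v (X ^ 2 : K[X]) γ⁻¹) :
    v γ ≤ 1 ∧ ¬ PerMod v (X ^ 2 : K[X]) γ := by
  have h2 : v γ⁻¹ = 1 := by
    rcases lt_or_eq_of_le h1 with h3 | h3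
    · exfalso
      refine h ⟨1, one_pos, ?_⟩
      rw [iter_sq]
      apply Valuation.map_sub_lt
      · rw [map_pow]
        exact pow_lt_one₀ zero_le h3 (by norm_num)
      · exact h3
    · exact h3
  have h3 : v γ = 1 := by
    rw [map_inv₀] at h2
    exact inv_eq_one.mp h2
  refine ⟨h3.le, ?_⟩
  rintro ⟨n, hn, hp⟩
  refine h ⟨n, hn, ?_⟩
  rw [iter_sq] at hp ⊢
  have e : γ⁻¹ ^ 2 ^ n - γ⁻¹ = -(γ⁻¹ ^ 2 ^ n * γ⁻¹) * (γ ^ 2 ^ n - γ) := by
    have e1 : γ⁻¹ ^ 2 ^ n * γ ^ 2 ^ n = 1 := by rw [← mul_pow, inv_mul_cancel₀ h0, one_pow]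
    have e2 : γ⁻¹ * γ = 1 := inv_mul_cancel₀ h0
    linear_combination γ⁻¹ * e1 - (γ⁻¹ ^ 2 ^ n) * e2
  rw [e, map_mul, Valuation.map_neg, map_mul, map_pow, h2, one_pow, one_mul, one_mul]
  exact hp

end Val

theorem exists_odd {p : ℕ} (hp : p.Prime) (γ : ℚ) (h : p ∣ γ.den) :
    ∃ v : HeightOneSpectrum (𝓞 ℚ), v.valuation ℚ (p : ℚ) < 1 ∧ 1 < v.valuation ℚ γ := by
  obtain ⟨v, h1, h2⟩ := Pool.Agent.Arb.exists_at_prime hp
  have hv : v.valuation ℚ (p : ℚ) < 1 := by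
    rw [h1, ← WithZero.exp_zero, WithZero.exp_lt_exp]
    norm_num
  refine ⟨v, hv, ?_⟩
  have hnum : v.valuation ℚ (γ.num : ℚ) = 1 := by
    apply h2
    intro hd
    have h3 : p ∣ γ.num.natAbs := Int.natCast_dvd.mp hd
    have h4 := Nat.dvd_gcd h3 h
    rw [γ.reduced] at h4
    exact hp.one_lt.ne' (Nat.dvd_one.mp h4)
  have hden : v.valuation ℚ (γ.den : ℚ) < 1 := by
    obtain ⟨c, hc⟩ := h
    rw [hc]
    push_cast
    rw [map_mul, mul_comm]
    exact mul_lt_one_aux (natCast_le c) hv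
  have e : v.valuation ℚ γ * v.valuation ℚ (γ.den : ℚ) = 1 := by
    rw [← map_mul, Rat.mul_den_eq_num, hnum]
  by_contra hc
  have := mul_lt_one_aux (not_lt.mp hc) hden
  rw [e] at this
  exact lt_irrefl _ this

/-- each point or its inverse is nonintegral at an odd prime, or is a power of two up to sign -/
theorem point_cases (γ : ℚ) (h0 : γ ≠ 0) : ∃ γ' : ℚ, (γ' = γ ∨ γ' = γ⁻¹) ∧
    ((∃ v : HeightOneSpectrum (𝓞 ℚ), (∃ p : ℕ, p.Prime ∧ v.valuation ℚ (p : ℚ) < 1 ∧ 2 < p) ∧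
      1 < v.valuation ℚ γ') ∨ ∃ k : ℕ, γ' = 2 ^ k ∨ γ' = -2 ^ k) := by
  have odd_gt : ∀ p : ℕ, p.Prime → Odd p → 2 < p := by
    intro p hp ho
    have := hp.two_le
    rcases ho with ⟨r, rfl⟩
    omega
  have main : ∀ p : ℕ, p.Prime → Odd p → ∀ δ : ℚ, p ∣ δ.den →
      ∃ v : HeightOneSpectrum (𝓞 ℚ), (∃ p : ℕ, p.Prime ∧ v.valuation ℚ (p : ℚ) < 1 ∧ 2 < p) ∧
      1 < v.valuation ℚ δ := by
    intro p hp ho δ hd
    obtain ⟨v, h1, h2⟩ := exists_odd hp δ hd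
    exact ⟨v, ⟨p, hp, h1, odd_gt p hp ho⟩, h2⟩
  rcases γ.den.eq_two_pow_or_exists_odd_prime_and_dvd with ⟨b, hb⟩ | ⟨p, hp, hd, ho⟩
  · rcases γ.num.natAbs.eq_two_pow_or_exists_odd_prime_and_dvd with ⟨a, ha⟩ | ⟨p, hp, hd, ho⟩
    · -- powers of two
      have hnum : γ.num = 2 ^ a ∨ γ.num = -2 ^ a := by
        rcases Int.natAbs_eq γ.num with h | h
        · left; rw [h, ha]; push_cast; rfl
        · right; rw [h, ha]; push_cast; rfl
      rcases Nat.eq_zero_or_pos b with rfl | hbpos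
      · refine ⟨γ, Or.inl rfl, Or.inr ⟨a, ?_⟩⟩
        have h1 : γ = γ.num := by
          have := (Rat.den_eq_one_iff γ).mp (by rw [hb, pow_zero])
          exact this.symm
        rcases hnum with h | h
        · left; rw [h1, h]; push_cast; rfl
        · right; rw [h1, h]; push_cast; rfl
      · have ha0 : a = 0 := by
          by_contra hne
          have h2a : 2 ∣ γ.num.natAbs := by rw [ha]; exact dvd_pow_self 2 hne
          have h2b : 2 ∣ γ.den := by rw [hb]; exact dvd_pow_self 2 hbpos.ne'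
          have h4 := Nat.dvd_gcd h2a h2b
          rw [γ.reduced] at h4
          omega
        subst ha0
        refine ⟨γ⁻¹, Or.inr rfl, Or.inr ⟨b, ?_⟩⟩
        have hden : (γ.den : ℚ) = 2 ^ b := by rw [hb]; push_cast; rfl
        have h1 : γ⁻¹ = (γ.den : ℚ) / γ.num := by
          conv_lhs => rw [← Rat.num_div_den γ, inv_div]
        rw [h1, hden]
        rcases hnum with h | h
        · left; rw [h]; simp
        · right; rw [h]; push_cast; ring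
    · refine ⟨γ⁻¹, Or.inr rfl, Or.inl (main p hp ho _ ?_)⟩
      rw [Rat.den_inv_of_ne_zero h0]
      exact hd
  · exact ⟨γ, Or.inl rfl, Or.inl (main p hp ho _ hd)⟩

theorem pow_two (Γ : Finset ℚ)
    (hΓ : ∀ γ ∈ Γ, ∀ n, 0 < n → (ph (X ^ 2 : ℚ[X]))^[n] γ ≠ γ) :
    NDE.NatDens (GP (X ^ 2 : ℚ[X]) Γ) := by
  classical
  have h0 : ∀ γ ∈ Γ, γ ≠ 0 := by
    rintro γ hγ rfl
    apply hΓ 0 hγ 1 one_pos
    rw [iter_sq]; norm_num
  have h1 : ∀ γ ∈ Γ, γ ≠ 1 := by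
    rintro γ hγ rfl
    apply hΓ 1 hγ 1 one_pos
    rw [iter_sq]; norm_num
  have hd : (X ^ 2 : ℚ[X]).natDegree = 2 := natDegree_X_pow 2
  have hgood : ∀ v : HeightOneSpectrum (𝓞 ℚ), Good (v.valuation ℚ) (X ^ 2 : ℚ[X]) := by
    intro v
    refine ⟨fun i => ?_, ?_⟩
    · rw [coeff_X_pow]
      split_ifs
      · rw [map_one]
      · rw [map_zero]; exact zero_le
    · rw [leadingCoeff_X_pow, map_one]
  -- choices
  have hex : ∀ γ : ℚ, ∃ γ' : ℚ, γ ∈ Γ → (γ' = γ ∨ γ' = γ⁻¹) ∧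
    ((∃ v : HeightOneSpectrum (𝓞 ℚ), (∃ p : ℕ, p.Prime ∧ v.valuation ℚ (p : ℚ) < 1 ∧ 2 < p) ∧
      1 < v.valuation ℚ γ') ∨ ∃ k : ℕ, γ' = 2 ^ k ∨ γ' = -2 ^ k) := by
    intro γ
    by_cases h : γ ∈ Γ
    · obtain ⟨γ', h'⟩ := point_cases γ (h0 γ h)
      exact ⟨γ', fun _ => h'⟩
    · exact ⟨γ, fun h' => absurd h' h⟩
  choose g hg using hex
  obtain ⟨q0, hq0⟩ : ∃ q0 : HeightOneSpectrum (𝓞 ℚ), q0.valuation ℚ ((3 : ℕ) : ℚ) < 1 := by
    obtain ⟨v, h1, -⟩ := Pool.Agent.Arb.exists_at_prime Nat.prime_three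
    refine ⟨v, ?_⟩
    rw [h1, ← WithZero.exp_zero, WithZero.exp_lt_exp]
    norm_num
  have hex2 : ∀ γ : ℚ, ∃ v : HeightOneSpectrum (𝓞 ℚ), ∃ k : ℕ,
      (∃ p : ℕ, p.Prime ∧ v.valuation ℚ (p : ℚ) < 1 ∧ 2 < p) ∧
      (γ ∈ Γ → 1 < v.valuation ℚ (g γ) ∨ g γ = 2 ^ k ∨ g γ = -2 ^ k) := by
    intro γ
    by_cases h : γ ∈ Γ
    · rcases (hg γ h).2 with ⟨v, hv, h2⟩ | ⟨k, hk⟩
      · exact ⟨v, 0, hv, fun _ => Or.inl h2⟩
      · exact ⟨q0, k, ⟨3, Nat.prime_three, hq0, by norm_num⟩, fun _ => Or.inr hk⟩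
    · exact ⟨q0, 0, ⟨3, Nat.prime_three, hq0, by norm_num⟩, fun h' => absurd h' h⟩
  choose V k hV hk using hex2
  -- the prime `v0`
  set m : ℕ := ∑ γ ∈ Γ, k γ with hm
  have hkm : ∀ γ ∈ Γ, k γ < 2 ^ m := by
    intro γ hγ
    have : k γ ≤ m := Finset.single_le_sum (f := k) (fun _ _ => Nat.zero_le _) hγ
    exact this.trans_lt (Nat.lt_two_pow_self)
  have hN1 : 2 ^ 2 ^ m + 1 ≠ 1 := by
    have h5 : 0 < 2 ^ 2 ^ m := by positivity
    omega
  set q := Nat.minFac (2 ^ 2 ^ m + 1) with hq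
  have hqp : q.Prime := Nat.minFac_prime hN1
  have hqd : q ∣ 2 ^ 2 ^ m + 1 := Nat.minFac_dvd _
  have hq2 : ¬ q ∣ 2 := by
    intro h
    have h2m : 2 ^ m ≠ 0 := by positivity
    have h3 : q ∣ 2 ^ 2 ^ m := h.trans (dvd_pow_self 2 h2m)
    have h4 : q ∣ 1 := (Nat.dvd_add_right h3).mp hqd
    exact hqp.one_lt.ne' (Nat.dvd_one.mp h4)
  obtain ⟨v0, hv1, hv2⟩ := Pool.Agent.Arb.exists_at_prime hqp
  have hv2' : v0.valuation ℚ 2 = 1 := by
    have := hv2 2 (by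
      intro h
      apply hq2
      exact_mod_cast h)
    simpa using this
  have hvm : v0.valuation ℚ ((2 : ℚ) ^ 2 ^ m + 1) < 1 := by
    obtain ⟨c, hc⟩ := hqd
    have e : ((2 : ℚ) ^ 2 ^ m + 1) = (q : ℚ) * c := by exact_mod_cast hc
    rw [e, map_mul, mul_comm]
    refine mul_lt_one_aux (natCast_le c) ?_
    rw [hv1, ← WithZero.exp_zero, WithZero.exp_lt_exp]
    norm_num
  have hnp : ∀ γ' ∈ Γ.image g, ∀ n, 0 < n → (ph (X ^ 2 : ℚ[X]))^[n] γ' ≠ γ' := by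
    intro γ' hγ' n hn h
    obtain ⟨γ, hγ, rfl⟩ := Finset.mem_image.mp hγ'
    rcases (hg γ hγ).1 with e | e
    · rw [e] at h
      exact hΓ γ hγ n hn h
    · apply hΓ γ hγ n hn
      rw [e, iter_sq, inv_pow] at h
      rw [iter_sq]
      exact inv_injective h
  have hmain := nat_main (X ^ 2 : ℚ[X]) (by rw [hd]) (Γ.image g) hnp (Γ.image V)
    (by
      intro v hv
      obtain ⟨γ, -, rfl⟩ := Finset.mem_image.mp hv
      obtain ⟨p, hp, h1, h2⟩ := hV γ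
      exact ⟨hgood _, p, hp, h1, by rw [hd]; exact h2⟩)
    v0 (hgood v0) (by
      intro γ' hγ'
      obtain ⟨γ, hγ, rfl⟩ := Finset.mem_image.mp hγ'
      have hpow : ∀ r : ℕ, v0.valuation ℚ ((2 : ℚ) ^ r) = 1 := by
        intro r
        rw [map_pow, hv2', one_pow]
      rcases hk γ hγ with h | h | h
      · left
        exact ⟨V γ, Finset.mem_image_of_mem V hγ, h⟩
      · right; right
        rw [h]
        refine ⟨(hpow _).le, ?_⟩
        have hkpos : 0 < k γ := by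
          rcases Nat.eq_zero_or_pos (k γ) with h3 | h3
          · exfalso
            rw [h3, pow_zero] at h
            rcases (hg γ hγ).1 with e | e
            · exact h1 γ hγ (e.symm.trans h)
            · apply h1 γ hγ
              rw [h] at e
              exact (inv_eq_one.mp e.symm)
          · exact h3
        obtain ⟨j, -, hj⟩ := pow_two_neg (v0.valuation ℚ) hv2' hvm hkpos (hkm γ hγ)
        exact not_per _ hv2' (hpow _) hj
      · right; right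
        rw [h]
        have hu : v0.valuation ℚ (-(2 : ℚ) ^ k γ) = 1 := by rw [Valuation.map_neg]; exact hpow _
        refine ⟨hu.le, ?_⟩
        rcases Nat.eq_zero_or_pos (k γ) with h3 | h3
        · apply not_per _ hv2' hu (j := 1)
          rw [h3]
          simp
        · obtain ⟨j, hje, hj⟩ := pow_two_neg (v0.valuation ℚ) hv2' hvm h3 (hkm γ hγ)
          apply not_per _ hv2' hu (j := j)
          rw [hje.neg_pow]
          exact hj)
  refine hmain.mono Set.finite_empty ?_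
  rw [Set.union_empty]
  rintro v ⟨hv, h⟩
  refine ⟨hv, fun γ hγ => ?_⟩
  have h3 := h (g γ) (Finset.mem_image_of_mem g hγ)
  rcases (hg γ hγ).1 with e | e
  · rw [e] at h3
    exact h3
  · rw [e] at h3
    exact per_inv _ (h0 γ hγ) h3.1 h3.2

/-- the same for the power maps of degree `2 ^ k` -/
theorem pow_two_pow (k : ℕ) (hk : 0 < k) (Γ : Finset ℚ)
    (hΓ : ∀ γ ∈ Γ, ∀ n, 0 < n → (ph (X ^ 2 ^ k : ℚ[X]))^[n] γ ≠ γ) :
    NDE.NatDens (GP (X ^ 2 ^ k : ℚ[X]) Γ) := by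
  have hit : ∀ (n : ℕ) (x : ℚ), (ph (X ^ 2 ^ k : ℚ[X]))^[n] x =
      (ph (X ^ 2 : ℚ[X]))^[k * n] x := by
    intro n x
    rw [iter_sq]
    have e : (ph (X ^ 2 ^ k : ℚ[X]) : ℚ → ℚ) = fun y => y ^ 2 ^ k := by
      funext y
      rw [ph_eq_eval]
      simp
    induction n with
    | zero => simp
    | succ n ih =>
      rw [Function.iterate_succ_apply', ih, e]
      show (x ^ 2 ^ (k * n)) ^ 2 ^ k = x ^ 2 ^ (k * (n + 1))
      rw [← pow_mul, ← pow_add]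
      rfl
  have hmain := pow_two Γ (by
    intro γ hγ n hn h
    apply hΓ γ hγ n hn
    rw [hit, mul_comm, Function.iterate_mul, Function.iterate_fixed]
    exact h)
  refine hmain.mono Set.finite_empty ?_
  rw [Set.union_empty]
  rintro v ⟨-, h⟩
  refine ⟨⟨fun i => ?_, ?_⟩, fun γ hγ => ⟨(h γ hγ).1, ?_⟩⟩
  · rw [coeff_X_pow]
    split_ifs
    · rw [map_one]
    · rw [map_zero]; exact zero_le
  · rw [leadingCoeff_X_pow, map_one]
  · rintro ⟨n, hn, hp⟩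
    rw [hit] at hp
    exact (h γ hγ).2 ⟨k * n, Nat.mul_pos hk hn, hp⟩

end Pool.Agent.TFS2
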