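import Pool.Agent.Arb.Rat2
import Pool.Agent.NDE.Pol
import Pool.Agent.TFS2.Pow

/-!
# Good primes from the local property at a finite set of places, and power maps over `ℚ`
-/

set_option autoImplicit false

open Polynomial WithZero NumberField IsDedekindDomain
open scoped WithZero

namespace Pool.Agent.TFS2

open Pool.Agent.TameArb Pool.Agent.NDE

section Auto

variable {K : Type} [Field K] [NumberField K] {φ : K[X]}

/-- the automorphism without fixed points, from the local property at the places of `T` -/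
theorem exists_auto' (hd : 2 ≤ φ.natDegree) (Γ : Finset K) (T : Finset (HeightOneSpectrum (𝓞 K)))
    (hT : ∀ v ∈ T, ∃ p : ℕ, p.Prime ∧ v.valuation K (p : K) < 1 ∧
      ∀ i, 0 < i → MM φ ∣ i → ∀ γ ∈ Γ, ∃ m0, ∀ m, m0 ≤ m → Loc φ (v.valuation K) p i γ m)
    (v0 : HeightOneSpectrum (𝓞 K)) (hv0 : Good (v0.valuation K) φ)
    (hΓ : ∀ γ ∈ Γ, (∃ v ∈ T, 1 < v.valuation K γ) ∨
      (v0.valuation K γ ≤ 1 ∧ ¬ PerMod (v0.valuation K) φ γ)) :
    ∃ n : ℕ, ∀ (L : Type) [Field L] [NumberField L] [Algebra K L] [IsGalois K L],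
      ∃ g : L ≃ₐ[K] L, ∀ γ ∈ Γ, ∀ z : L, (ph φ)^[n] z = algebraMap K L γ → g z ≠ z := by
  classical
  have hSt : ∀ T : Finset (HeightOneSpectrum (𝓞 K)), (∀ v ∈ T, ∃ p : ℕ, p.Prime ∧
      v.valuation K (p : K) < 1 ∧
      ∀ i, 0 < i → MM φ ∣ i → ∀ γ ∈ Γ, ∃ m0, ∀ m, m0 ≤ m → Loc φ (v.valuation K) p i γ m) →
      ∃ m, St φ Γ {γ | ∃ v ∈ T, 1 < v.valuation K γ} m := by
    intro T
    induction T using Finset.induction_on with
    | empty =>
      intro _
      refine ⟨0, ?_⟩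
      have := st_base φ Γ
      have h1 : {γ : K | ∃ v ∈ (∅ : Finset (HeightOneSpectrum (𝓞 K))), 1 < v.valuation K γ} = ∅ := by
        ext; simp
      rw [h1]; exact this
    | insert a s ha ih =>
      intro hT
      obtain ⟨m, hm⟩ := ih (fun v hv => hT v (Finset.mem_insert_of_mem hv))
      obtain ⟨p, hp, hpv, hloc⟩ := hT a (Finset.mem_insert_self a s)
      obtain ⟨m', hm'⟩ := st_step hd hm a hp hpv
        (fun i hi hMi γ hγ _ => hloc i hi hMi γ hγ)
      refine ⟨m', ?_⟩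
      have h1 : {γ : K | ∃ v ∈ insert a s, 1 < v.valuation K γ} =
          {γ | ∃ v ∈ s, 1 < v.valuation K γ} ∪ {γ | 1 < a.valuation K γ} := by
        ext γ
        simp [or_comm]
      rw [h1]; exact hm'
  have hSt2 : ∃ (m : ℕ) (B : Set K), St φ Γ B m ∧
      ∀ γ ∈ Γ, γ ∉ B → v0.valuation K γ ≤ 1 ∧ ¬ PerMod (v0.valuation K) φ γ := by
    obtain ⟨m, hm⟩ := hSt T hT
    refine ⟨m, _, hm, ?_⟩
    intro γ hγ hB
    rcases hΓ γ hγ with h3 | h3
    · exact absurd h3 hB
    · exact h3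
  obtain ⟨m, B, hm, hmB⟩ := hSt2
  set q := Ideal.absNorm v0.asIdeal with hq
  have hq1 : 1 < q := by
    have h0 : q ≠ 0 := fun h => v0.ne_bot (Ideal.absNorm_eq_zero_iff.1 h)
    have h1 : q ≠ 1 := fun h => v0.isPrime.ne_top (Ideal.absNorm_eq_one_iff.1 h)
    omega
  set i := Nat.factorial (φ.natDegree ^ m) with hi
  have hi0 : 0 < i := Nat.factorial_pos _
  refine ⟨m + q ^ i, ?_⟩
  intro L _ _ _ _
  obtain ⟨g, hg⟩ := hm L
  obtain ⟨w, e, h, he, hval, -, hfrob⟩ := exists_frob K L v0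
  have hh : Frob (v0.valuation K) (w.valuation L) e q h := ⟨⟨he, hval⟩, hfrob⟩
  refine ⟨g * h ^ i, ?_⟩
  intro γ hγ z hz hfix
  rw [AlgEquiv.mul_apply] at hfix
  set y := (ph φ)^[q ^ i] z with hy
  have hylev : (ph φ)^[m] y = algebraMap K L γ := by
    rw [hy, ← Function.iterate_add_apply, hz]
  have hhy : (h ^ i) y = y :=
    pow_fix_fibre φ hd h (m := m) (x := y) (by rw [hylev]; exact h.commutes γ)
  have hgy : g y = y := by
    have h1 : g ((h ^ i) y) = y := by rw [hy, iter_aut, iter_aut, hfix]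
    rwa [hhy] at h1
  obtain ⟨hB, hab⟩ := hg γ hγ y hylev hgy
  have habove : (ph φ)^[q ^ i] ((h ^ i) z) = y := by
    rw [← iter_aut, ← hy, hhy]
  have hhz : (h ^ i) z = z := by
    have h1 := hab _ _ habove
    rw [hfix] at h1
    exact h1.symm
  obtain ⟨h1, h2⟩ := hmB γ hγ hB
  exact frob_moved hv0 hd h1 h2 hq1 hi0 hh (n := m + q ^ i) (by omega) hz hhz


theorem nat_of_auto (φ : K[X]) (hd : 2 ≤ φ.natDegree) (Γ : Finset K) {n : ℕ}
    (hn : ∀ (L : Type) [Field L] [NumberField L] [Algebra K L] [IsGalois K L],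
      ∃ g : L ≃ₐ[K] L, ∀ γ ∈ Γ, ∀ z : L, (ph φ)^[n] z = algebraMap K L γ → g z ≠ z) :
    NatDens (GP φ Γ) := by
  classical
  set f : K[X] := ∏ γ ∈ Γ, (itp φ n - C γ) with hf
  obtain ⟨L, _, _, _, _, hsplit⟩ := exists_split K f
  obtain ⟨g, hg⟩ := hn L
  -- each factor splits
  have hf0 : f ≠ 0 := by
    rw [hf]
    apply Finset.prod_ne_zero_iff.mpr
    intro γ _ h0
    have h1 : itp φ n = C γ := sub_eq_zero.mp h0
    have h2 := itp_natDegree φ n
    rw [h1, natDegree_C] at h2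
    have : 0 < φ.natDegree ^ n := by positivity
    omega
  have hsp : ∀ γ ∈ Γ, ((itp φ n).map (algebraMap K L) - C (algebraMap K L γ)).Splits := by
    intro γ hγ
    have h1 : (itp φ n - C γ).map (algebraMap K L) ∣ f.map (algebraMap K L) :=
      Polynomial.map_dvd _ (Finset.dvd_prod_of_mem _ hγ)
    have h2 := hsplit.of_dvd ((Polynomial.map_ne_zero_iff (algebraMap K L).injective).mpr hf0) h1
    rwa [Polynomial.map_sub, map_C] at h2
  have hfib : ∀ γ : K, ∃ S : Finset L, ∀ x, x ∈ S ↔ (ph φ)^[n] x = algebraMap K L γ := by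
    intro γ
    obtain ⟨S, -, hS⟩ := exists_fibre φ hd n (algebraMap K L γ)
    exact ⟨S, hS⟩
  choose F hF using hfib
  -- the order of `g`
  have hfinG : Finite (L ≃ₐ[K] L) := inferInstance
  obtain ⟨N, hN, hgN⟩ : ∃ N, 0 < N ∧ g ^ N = 1 :=
    ⟨orderOf g, orderOf_pos g, pow_orderOf_eq_one g⟩
  have hdens : NatDens {v : HeightOneSpectrum (𝓞 K) | ∃ w : HeightOneSpectrum (𝓞 L),
      w.under (𝓞 K) = v ∧ ∀ z : L, w.valuation L (g z) = w.valuation L z} :=
    fixed_nat K L g N hN hgN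
  -- the bad primes
  set B : Set (HeightOneSpectrum (𝓞 K)) := {v | ¬ Good (v.valuation K) φ} ∪
    ((⋃ γ ∈ Γ, {v | ¬ v.valuation K γ ≤ 1}) ∪
      (fun w : HeightOneSpectrum (𝓞 L) => w.under (𝓞 K)) ''
        (⋃ γ ∈ Γ, ⋃ x ∈ F γ, {w | w.valuation L (g x - x) < 1})) with hB
  have hBfin : B.Finite := by
    refine (finite_bad hd).union (Set.Finite.union ?_ (Set.Finite.image _ ?_))
    · exact Set.Finite.biUnion (Finset.finite_toSet Γ) fun γ _ => finite_gt γ
    · refine Set.Finite.biUnion (Finset.finite_toSet Γ) fun γ hγ => ?_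
      refine Set.Finite.biUnion (Finset.finite_toSet (F γ)) fun x hx => ?_
      apply finite_lt
      have h1 := hg γ (Finset.mem_coe.mp hγ) x ((hF γ x).mp (Finset.mem_coe.mp hx))
      exact sub_ne_zero.mpr h1
  refine hdens.mono hBfin ?_
  rintro v ⟨w, hwv, hw⟩
  by_cases hvB : v ∈ B
  · exact Or.inr hvB
  left
  rw [hB] at hvB
  simp only [Set.mem_union, not_or] at hvB
  obtain ⟨hgood', hint', hclose'⟩ := hvB
  have hgood : Good (v.valuation K) φ := by
    by_contra h; exact hgood' h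
  refine ⟨hgood, ?_⟩
  intro γ hγ
  have hγ1 : v.valuation K γ ≤ 1 := by
    by_contra h
    apply hint'
    simp only [Set.mem_iUnion]
    exact ⟨γ, hγ, h⟩
  refine ⟨hγ1, ?_⟩
  rintro ⟨k, hk, hper⟩
  -- the valuation above
  have hlo : w.asIdeal.LiesOver v.asIdeal := by
    rw [← hwv]; exact ⟨rfl⟩
  set e := v.asIdeal.ramificationIdx' w.asIdeal with he
  have he0 : e ≠ 0 :=
    Ideal.IsDedekindDomain.ramificationIdx'_ne_zero_of_liesOver w.asIdeal v.ne_bot
  have ho : Over (v.valuation K) (w.valuation L) e :=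
    ⟨he0, fun x => HeightOneSpectrum.valuation_liesOver L v w x⟩
  -- a preimage of `γ` modulo `v` in `K`
  obtain ⟨m, hm⟩ : ∃ m, k * n + k = n + m := ⟨k * n + k - n, by
    have : n ≤ k * n := Nat.le_mul_of_pos_left n hk
    omega⟩
  have hcong := per_cong hgood hγ1 hper 0 (n + 1)
  rw [zero_add, show k * (n + 1) = n + m by rw [← hm]; ring, Function.iterate_add_apply] at hcong
  have hcong' : v.valuation K ((ph φ)^[n] ((ph φ)^[m] γ) - γ) < 1 := hcong
  have h1 := ho.lt_one.mpr hcong'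
  rw [map_sub, iter_algebraMap] at h1
  obtain ⟨x, hx, hax⟩ := ho.exists_root_close hgood hd (hsp γ hγ) h1
  apply hclose'
  refine ⟨w, ?_, hwv⟩
  simp only [Set.mem_iUnion]
  refine ⟨γ, hγ, x, (hF γ x).mpr hx, ?_⟩
  have h2 : w.valuation L (g (algebraMap K L ((ph φ)^[m] γ) - x)) < 1 := by rw [hw]; exact hax
  rw [map_sub, g.commutes] at h2
  have e1 : g x - x = (algebraMap K L ((ph φ)^[m] γ) - x) -
      (algebraMap K L ((ph φ)^[m] γ) - g x) := by ring
  show w.valuation L (g x - x) < 1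
  rw [e1]
  exact Valuation.map_sub_lt _ hax h2


end Auto

section LocPow

variable {K : Type} [Field K]

theorem iter_d {L : Type*} [Field L] [Algebra K L] (d : ℕ) (x : L) (n : ℕ) :
    (ph (X ^ d : K[X]))^[n] x = x ^ d ^ n := by
  have e : ∀ y : L, ph (X ^ d : K[X]) y = y ^ d := by
    intro y
    rw [ph_eq_eval_map]
    simp
  induction n with
  | zero => simp
  | succ n ih =>
    rw [Function.iterate_succ_apply', ih, e, ← pow_mul, ← pow_succ]

theorem good_pow {v : Valuation K ℤᵐ⁰} (d : ℕ) : Good v (X ^ d : K[X]) := by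
  refine ⟨fun i => ?_, ?_⟩
  · rw [coeff_X_pow]
    split_ifs
    · rw [map_one]
    · rw [map_zero]; exact zero_le
  · rw [leadingCoeff_X_pow, map_one]

/-- the local property of the power maps at a place prime to the degree -/
theorem loc_pow {d : ℕ} (hd : 2 ≤ d) {v : Valuation K ℤᵐ⁰} (hvd : v (d : K) = 1) {p : ℕ}
    (hpd : Nat.Coprime d p) {i : ℕ} (hi0 : 0 < i) (hMi : MM (X ^ d : K[X]) ∣ i) {γ : K}
    (h0 : γ ≠ 0) : ∃ m0, ∀ m, m0 ≤ m → Loc (X ^ d : K[X]) v p i γ m := by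
  have hdeg : (X ^ d : K[X]).natDegree = d := natDegree_X_pow d
  have hφ : Good v (X ^ d : K[X]) := good_pow d
  rcases lt_trichotomy 1 (v γ) with h1 | h1 | h1
  · obtain ⟨n0, hn0⟩ := moved_inf.{0} hφ (by rw [hdeg]; exact hd) (by rw [hdeg]; exact hpd) h1 hi0
    refine ⟨n0, fun m hm L _ _ V e τ hτ y hy hfix => ?_⟩
    exact absurd hfix (hn0 L V e τ hτ m hm y hy)
  · refine ⟨0, fun m _ L _ _ V e τ hτ y hy hfix => ⟨h1.ge, fun n z hz => ?_⟩⟩
    have h := hτ.ov
    have hγ' : V (algebraMap K L γ) = 1 := by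
      rw [← h.val, ← h1, one_pow]
    have hzlev : (ph (X ^ d : K[X]))^[m + n] z = algebraMap K L γ := by
      rw [Function.iterate_add_apply, hz, hy]
    have hz1 : V z = 1 := by
      rw [iter_d] at hzlev
      have h2 : V z ^ d ^ (m + n) = 1 := by rw [← map_pow, hzlev, hγ']
      exact (pow_eq_one_iff_of_nonneg zero_le (by positivity)).mp h2
    apply h.fix_all hφ (by rw [hdeg]; exact hd) (by rw [hdeg]; exact hvd) hz1.le hzlev _
      hτ.inert hMi
    intro j hj
    exfalso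
    rw [crits, Finset.mem_filter] at hj
    have hj2 := hj.2
    rw [iter_d] at hj2
    have hder : dph (X ^ d : K[X]) (z ^ d ^ j) = (d : L) * (z ^ d ^ j) ^ (d - 1) := by
      rw [dph, ph, derivative_X_pow, map_mul, map_pow, aeval_X, aeval_C, map_natCast]
    rw [hder, map_mul, map_pow, map_pow, hz1, one_pow, one_pow, mul_one] at hj2
    have hVd : V (d : L) = 1 := by
      have h3 := h.val (d : K)
      rw [hvd, one_pow, map_natCast] at h3
      exact h3.symm
    rw [hVd] at hj2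
    exact lt_irrefl _ hj2
  · have h2 : 1 < v γ⁻¹ := by
      rw [map_inv₀]
      exact (one_lt_inv₀ (zero_lt_iff.mpr ((Valuation.ne_zero_iff v).mpr h0))).mpr h1
    obtain ⟨n0, hn0⟩ := moved_inf.{0} hφ (by rw [hdeg]; exact hd) (by rw [hdeg]; exact hpd) h2 hi0
    refine ⟨n0, fun m hm L _ _ V e τ hτ y hy hfix => ?_⟩
    exfalso
    apply hn0 L V e τ hτ m hm y⁻¹
    · rw [iter_d] at hy ⊢
      rw [inv_pow, hy, map_inv₀]
    · rw [map_inv₀, hfix]

end LocPow

end Pool.Agent.TFS2
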